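import Pool.Agent.Helper53.PW.WEXB
import Pool.Agent.Helper39.M3.ANRM

/-!
# Project TH (MP_fc6b1e_nt, T100), W.0: one `Base` for several levels
-/

set_option autoImplicit false

namespace Pool.Agent.Helper11.TH

open NumberField Polynomial Module IsDedekindDomain Pool.Agent.Helper51.SigLeo
open Pool.Agent.Helper51.RP Pool.Agent.Helper42.RD Pool.Agent.Helper42.PP
open Pool.Agent.Helper42.PP1 (SitW subs_aut freeP_self sitW_one)
open Pool.Agent.Helper42.PB
open Pool.Agent.Helper40.RS (bel)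
open Pool.Agent.Helper40.RD (bel_of_above ordW)
open Pool.Agent.Helper38.RS (pz)
open Pool.Agent.Helper99.RS (pz_mono pz_union pz_finite finite_bad)
open Pool.Agent.Helper46.PP.Sch (sex avoid ram_fin ord_eq)
open Pool.Agent.Helper94.PB
open Pool.Agent.Helper11.M3 (Nrml)

/-- Existence of a normalised `Base` with given primes in `S`. -/
theorem base_ex {p : ℕ} [hp : Fact p.Prime] {K M K₁ M₁ : Type} [Field K] [NumberField K] [Field M]
    [NumberField M] [Field K₁] [NumberField K₁] [Field M₁] [NumberField M₁] [Algebra K M]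
    [Algebra K K₁] [Algebra K M₁] [Algebra M M₁] [Algebra K₁ M₁] {ε : K₁} {δ : M ≃ₐ[K] M}
    {P : (ZMod p)[X]} (hs : SitW p K M K₁ M₁ ε δ P) (S₀ : Finset (HeightOneSpectrum (𝓞 K))) :
    ∃ B : Base p K M K₁ M₁ ε δ P, S₀ ⊆ B.S ∧ Nrml B := by
  obtain ⟨S, hS₀, hSp, hunr, hprM, hprK, hprMK, hUM, hUK⟩ := schB hs S₀
  obtain ⟨B, hBS⟩ := exbS hs S hSp hunr hprM hprK hprMK hUM hUK
  obtain ⟨c, hc⟩ := Pool.Agent.Helper11.R.exists_cth hs B
  let B' : Base p K M K₁ M₁ ε δ P :=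
    { B with
      th := fun v x ↦ (c v)⁻¹ * B.th v x
      thh := by
        intro v hv x y
        change (c v)⁻¹ * B.th v (x * y) = (c v)⁻¹ * B.th v x + (c v)⁻¹ * B.th v y
        rw [B.thh v hv x y, mul_add]
      thk := by
        intro v hv x
        rw [← B.thk v hv x, mul_eq_zero, inv_eq_zero, or_iff_right (hc v hv).1] }
  refine ⟨B', ?_, ?_⟩
  · show S₀ ⊆ B.S
    rw [hBS]
    exact hS₀
  · intro v hv x hx
    change (c v)⁻¹ * B.th v x = _
    rw [(hc v hv).2 x hx, inv_mul_cancel_left₀ (hc v hv).1]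

/-- The additional data of a level exist over every `Base` whose `S` is large enough. -/
theorem baseB_ex {p : ℕ} [hp : Fact p.Prime] {K M K₁ M₁ J M₂ : Type} [Field K] [NumberField K]
    [Field M] [NumberField M] [Field K₁] [NumberField K₁] [Field M₁] [NumberField M₁] [Field J]
    [NumberField J] [Field M₂] [NumberField M₂] [Algebra K M] [Algebra K K₁] [Algebra K M₁]
    [Algebra M M₁] [Algebra K₁ M₁] [Algebra K J] [Algebra K M₂] [Algebra M M₂] [Algebra K₁ M₂]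
    [Algebra M₁ M₂] [Algebra J M₂] {ε : K₁} {δ : M ≃ₐ[K] M} {P : (ZMod p)[X]} {a₀ : M₂ˣ}
    (hB : SitB p K M K₁ M₁ J M₂ ε δ P a₀) :
    ∃ S₁ : Finset (HeightOneSpectrum (𝓞 K)), ∀ B : Base p K M K₁ M₁ ε δ P, S₁ ⊆ B.S →
      Nonempty (BaseB B a₀) := by
  classical
  have hs := hB.sit
  have := hs.st1
  have := hs.st2
  have := hs.gMK
  have := hB.t1
  have := hB.t2
  have := hB.t3
  have := hB.gM₂
  have hfd : FiniteDimensional K M₂ := Module.Finite.of_restrictScalars_finite ℚ K M₂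
  have hfinI : Finite (IntermediateField K M₂) :=
    (Field.exists_primitive_element_iff_finite_intermediateField K M₂).1
      ⟨inferInstance, Field.exists_primitive_element K M₂⟩
  -- the set of primes
  have h1 := ram_fin K M₂
  have h2 := finite_bad (F := M₂) a₀.ne_zero
  choose SF hSF1 hSFa hSFb hSF2 using
    fun F : IntermediateField K M₂ => sex K F ∅ Set.finite_empty
  have h3 : (⋃ F : IntermediateField K M₂, bel K '' (SF F)).Finite :=
    Set.finite_iUnion fun F => (hSF1 F).image (bel K)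
  refine ⟨h1.toFinset ∪ (h2.image (bel K)).toFinset ∪ h3.toFinset, fun B hS₀ => ?_⟩
  obtain ⟨S, hBS⟩ : ∃ S, S = B.S := ⟨_, rfl⟩
  rw [← hBS] at hS₀
  have hSr : ∀ v : HeightOneSpectrum (𝓞 K), v ∉ S → ¬ ∃ V : HeightOneSpectrum (𝓞 M₂),
      Above V v ∧ v.asIdeal.map (algebraMap (𝓞 K) (𝓞 M₂)) ≤ V.asIdeal ^ 2 := by
    intro v hv h
    exact hv (hS₀ (by simp only [Finset.mem_union, Set.Finite.mem_toFinset]; exact Or.inl (Or.inl h)))
  have hSa : ∀ W : HeightOneSpectrum (𝓞 M₂), W ∉ up M₂ S → W.valuation M₂ (a₀ : M₂) = 1 := by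
    intro W hW
    by_contra h
    apply hW
    refine ⟨bel K W, hS₀ ?_, rfl⟩
    simp only [Finset.mem_union, Set.Finite.mem_toFinset]
    exact Or.inl (Or.inr ⟨W, h, rfl⟩)
  have hSF : ∀ (F : IntermediateField K M₂) (w : HeightOneSpectrum (𝓞 F)), w ∈ SF F →
      w ∈ up F S := by
    intro F w hw
    refine ⟨bel K w, hS₀ ?_, rfl⟩
    simp only [Finset.mem_union, Set.Finite.mem_toFinset, Set.mem_iUnion]
    exact Or.inr ⟨F, w, hw, rfl⟩
  have hunr₂ : ∀ v : HeightOneSpectrum (𝓞 K), v ∉ S → ∀ W : HeightOneSpectrum (𝓞 M₂),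
      Above W v → ∀ x : K, ordv W (algebraMap K M₂ x) = ordv v x := by
    intro v hv W hW x
    exact ord_eq hW (fun h => hSr v hv ⟨W, hW, h⟩) x
  -- the primes of `M₂`
  have hW₂ : ∀ v : HeightOneSpectrum (𝓞 K), ∃ W₂ : HeightOneSpectrum (𝓞 M₂),
      v ∈ Spl M₂ S → Above W₂ v ∧ Above W₂ (B.W v) ∧ FreeP K W₂ := by
    intro v
    obtain ⟨W₂, hW₂⟩ := exists_bel (M₁ := M₂) (B.W v)
    refine ⟨W₂, fun hv => ?_⟩
    obtain ⟨hvS, W', hW', hW'f⟩ := hv
    have hb' : bel K W' = v := bel_of_above hW'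
    have hvis : v ∈ Spl M₁ B.S := by
      rw [← hBS]
      refine ⟨hvS, bel M₁ W', ?_, Pool.Agent.Helper79.PP.free_bel W' hW'f⟩
      have hb2 : bel K (bel M₁ W') = v := (bel_bel W').trans hb'
      exact congrArg HeightOneSpectrum.asIdeal hb2
    have hWv := (B.Wa v hvis).1
    have hb : bel K W₂ = v := by
      rw [← bel_bel (M := M₁) W₂, hW₂]
      exact bel_of_above hWv
    refine ⟨congrArg HeightOneSpectrum.asIdeal hb, ?_, ?_⟩
    · rw [← hW₂]
      exact above_bel W₂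
    · exact free_of_conj (conj_of_bel' (hb.trans hb'.symm)) hW'f
  choose W₂ hW₂ using hW₂
  have hx : ∀ v : HeightOneSpectrum (𝓞 K), ∃ x : Kˣ, v ∈ Spl M₂ S → ordv v (x : K) = 0 ∧
      LocPow p (W₂ v) ((a₀ : M₂) * (algebraMap K M₂ (x : K))⁻¹) := by
    intro v
    by_cases hv : v ∈ Spl M₂ S
    · obtain ⟨hWv, -, hf⟩ := hW₂ v hv
      obtain ⟨x, hx⟩ := Pool.Agent.Helper64.PP.exists_close (K := K) (W₂ v) hf (a₀ : M₂)
        a₀.ne_zero
      have h5 := val_eq_one_of_sub _ hx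
      have hx0 : x ≠ 0 := by
        rintro rfl
        rw [map_zero, zero_div, map_zero] at h5
        exact zero_ne_one h5
      refine ⟨Units.mk0 x hx0, fun _ => ⟨?_, ?_⟩⟩
      · have h6 : ordv (W₂ v) (algebraMap K M₂ x) = ordv (W₂ v) (a₀ : M₂) :=
          ordv_eq_of_div _ a₀.ne_zero hx
        have h7 : ordv (W₂ v) (a₀ : M₂) = 0 := by
          refine (ordv_eq_zero_iff _ a₀.ne_zero).2 (hSa _ ?_)
          rintro ⟨v', hv', hab⟩
          have h8 : v' = v := by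
            rw [← bel_of_above hab, bel_of_above hWv]
          rw [h8] at hv'
          exact hv.1 hv'
        show ordv v x = 0
        rw [← hunr₂ v hv.1 _ hWv, h6, h7]
      · have h8 := val_inv_sub _ hx
        rw [inv_div, div_eq_mul_inv] at h8
        exact locPow_of_sub _ h8
    · exact ⟨1, fun h => absurd h hv⟩
  choose xv hxv using hx
  refine ⟨⟨?_, ?_, ?_, W₂, ?_, fun v => B.th v (inc K M₁ (xv v)), ?_⟩⟩
  · rw [← hBS]
    exact hunr₂
  · rw [← hBS]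
    intro W hW
    rw [(ordv_eq_zero_iff W a₀.ne_zero).2 (hSa W hW)]
    exact dvd_zero _
  · rw [← hBS]
    intro F n
    obtain ⟨x, hx⟩ := hSF2 F n
    exact ⟨x, fun w hw => hx w fun h => hw (hSF F w h)⟩
  · rw [← hBS]
    exact hW₂
  · rw [← hBS]
    intro v hv
    exact ⟨xv v, (hxv v hv).1, rfl, (hxv v hv).2⟩

/-- **W.0**: one normalised `Base` for finitely many levels. -/
theorem w0_base {p : ℕ} [hp : Fact p.Prime] {K M K₁ M₁ : Type} [Field K] [NumberField K]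
    [Field M] [NumberField M] [Field K₁] [NumberField K₁] [Field M₁] [NumberField M₁]
    [Algebra K M] [Algebra K K₁] [Algebra K M₁] [Algebra M M₁] [Algebra K₁ M₁] {ε : K₁}
    {δ : M ≃ₐ[K] M} {P : (ZMod p)[X]} (hs : SitW p K M K₁ M₁ ε δ P)
    (J M₂ : ℕ → Type) [∀ i, Field (J i)]
    [∀ i, NumberField (J i)] [∀ i, Field (M₂ i)] [∀ i, NumberField (M₂ i)] [∀ i, Algebra K (J i)]
    [∀ i, Algebra K (M₂ i)] [∀ i, Algebra M (M₂ i)] [∀ i, Algebra K₁ (M₂ i)]
    [∀ i, Algebra M₁ (M₂ i)] [∀ i, Algebra (J i) (M₂ i)] (a₀ : ∀ i, (M₂ i)ˣ) (N : ℕ)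
    (hB : ∀ i < N, SitB p K M K₁ M₁ (J i) (M₂ i) ε δ P (a₀ i))
    (S₀ : Finset (HeightOneSpectrum (𝓞 K))) :
    ∃ B : Base p K M K₁ M₁ ε δ P, S₀ ⊆ B.S ∧ Nrml B ∧ ∀ i < N, Nonempty (BaseB B (a₀ i)) := by
  classical
  have h1 : ∀ i : ℕ, ∃ S₁ : Finset (HeightOneSpectrum (𝓞 K)), i < N →
      ∀ B : Base p K M K₁ M₁ ε δ P, S₁ ⊆ B.S → Nonempty (BaseB B (a₀ i)) := by
    intro i
    by_cases hi : i < N
    · obtain ⟨S₁, hS₁⟩ := baseB_ex (hB i hi)
      exact ⟨S₁, fun _ => hS₁⟩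
    · exact ⟨∅, fun h => absurd h hi⟩
  choose S₁ hS₁ using h1
  obtain ⟨B, hBS, hNr⟩ := base_ex hs (S₀ ∪ (Finset.range N).biUnion S₁)
  refine ⟨B, fun v hv => hBS (Finset.mem_union_left _ hv), hNr, fun i hi => ?_⟩
  refine hS₁ i hi B fun v hv => hBS (Finset.mem_union_right _ ?_)
  exact Finset.mem_biUnion.2 ⟨i, Finset.mem_range.2 hi, hv⟩

end Pool.Agent.Helper11.TH
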