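import Pool.Agent.Helper11.TH.HYP1
import Pool.Agent.Helper11.TH.W0
import Pool.Agent.Helper42.TH.GoalsAL
import Pool.Agent.Helper42.WY.MOM3
import Pool.Agent.Helper42.WY.MB1X
import Pool.Agent.Helper38.WY.AsmY

/-!
# Project TH (MP_fc6b1e_nt, T100): the arithmetic part (`ALev`) in the three cases
-/

set_option autoImplicit false

namespace Pool.Agent.Helper11.TH

open NumberField Polynomial Module IsDedekindDomain
open Pool.Agent.Helper51.RP Pool.Agent.Helper42.RD Pool.Agent.Helper42.PP Pool.Agent.Helper42.PP1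
open Pool.Agent.Helper42.PB Pool.Agent.Helper42.PW Pool.Agent.Helper11.PP
open Pool.Agent.Helper38.WY Pool.Agent.Helper42.WY
open Pool.Agent.Helper51.SigLeo (IwasawaLog)
open Pool.Agent.Helper38.TH (HypG)
open Pool.Agent.Helper42.TH (ALev AL_GEN AL_SD AL_ONE)
open Pool.Agent.Helper76.PP (psK)
open Pool.Agent.Helper76.PB (NrmInd)
open Pool.Agent.Helper11.M3 (Nrml)
open Pool.Agent.Helper11.R (NTV2 ntv_of_ntv2)
open Pool.Agent.Helper11.PB (tc_up)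
open Pool.Agent.Helper11.LE (Cyc)
open Pool.Agent.Helper94.PP1 (rank1')
open Pool.Agent.Helper77.PPS (gK)

/-- One normalised base for the levels of a sequence with finitely many values. -/
theorem base_lv {p : ℕ} [hp : Fact p.Prime] {K M K₁ M₁ : Type} [Field K] [NumberField K]
    [Field M] [NumberField M] [Field K₁] [NumberField K₁] [Field M₁] [NumberField M₁]
    [Algebra K M] [Algebra K K₁] [Algebra K M₁] [Algebra M M₁] [Algebra K₁ M₁] {ε : K₁}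
    {δ : M ≃ₐ[K] M} {P : (ZMod p)[X]}
    (J M₂ : ℕ → Type) [∀ i, Field (J i)]
    [∀ i, NumberField (J i)] [∀ i, Field (M₂ i)] [∀ i, NumberField (M₂ i)] [∀ i, Algebra K (J i)]
    [∀ i, Algebra K (M₂ i)] [∀ i, Algebra M (M₂ i)] [∀ i, Algebra K₁ (M₂ i)]
    [∀ i, Algebra M₁ (M₂ i)] [∀ i, Algebra (J i) (M₂ i)] (a₀ : ∀ i, (M₂ i)ˣ)
    (hB : ∀ i, SitB p K M K₁ M₁ (J i) (M₂ i) ε δ P (a₀ i))
    (lv : ℕ → ℕ) (hlv : (Set.range lv).Finite) (S₀ : Finset (HeightOneSpectrum (𝓞 K))) :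
    ∃ B : Base p K M K₁ M₁ ε δ P, S₀ ⊆ B.S ∧ Nrml B ∧ ∀ i, Nonempty (BaseB B (a₀ (lv i))) := by
  classical
  choose S₁ hS₁ using fun i => baseB_ex (hB i)
  obtain ⟨B, hBS, hNr⟩ := base_ex (hB 0).sit (S₀ ∪ hlv.toFinset.biUnion S₁)
  refine ⟨B, fun v hv => hBS (Finset.mem_union_left _ hv), hNr, fun i => ?_⟩
  refine hS₁ (lv i) B fun v hv => hBS (Finset.mem_union_right _ ?_)
  exact Finset.mem_biUnion.2 ⟨lv i, hlv.mem_toFinset.2 ⟨i, rfl⟩, hv⟩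

section card

variable {p : ℕ} [hp : Fact p.Prime] {P : (ZMod p)[X]} [Fact (Irreducible P)]

theorem card_root [Fintype (AdjoinRoot P)] : Fintype.card (AdjoinRoot P) = p ^ P.natDegree := by
  have hP0 : P ≠ 0 := (Fact.out : Irreducible P).ne_zero
  have hfd : FiniteDimensional (ZMod p) (AdjoinRoot P) := (AdjoinRoot.powerBasis hP0).finite
  rw [Module.card_eq_pow_finrank (K := ZMod p) (V := AdjoinRoot P), ZMod.card,
    (AdjoinRoot.powerBasis hP0).finrank, AdjoinRoot.powerBasis_dim]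

theorem card_fin (i₀ : Fintype (AdjoinRoot P)) (n : ℕ) (i₁ : Fintype (Fin n → AdjoinRoot P)) :
    (@Fintype.card (Fin n → AdjoinRoot P) i₁ : ℝ) = ((p : ℝ) ^ P.natDegree) ^ n := by
  have h : @Fintype.card (Fin n → AdjoinRoot P) i₁ = (p ^ P.natDegree) ^ n := by
    rw [← Nat.card_eq_fintype_card, Nat.card_fun, Nat.card_eq_fintype_card,
      Nat.card_eq_fintype_card, card_root, Fintype.card_fin]
  rw [h]
  push_cast
  ring

theorem ratio_le (i₀ : Fintype (AdjoinRoot P)) {r n : ℕ} (h : r ≤ n)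
    (i₁ : Fintype (Fin r → AdjoinRoot P)) (i₂ : Fintype (Fin n → AdjoinRoot P)) :
    (@Fintype.card (Fin r → AdjoinRoot P) i₁ / @Fintype.card (Fin n → AdjoinRoot P) i₂ : ℝ) ≤
      1 := by
  have hp1 : (1 : ℝ) ≤ p := by exact_mod_cast hp.out.one_lt.le
  have hQ1 : (1 : ℝ) ≤ (p : ℝ) ^ P.natDegree := one_le_pow₀ hp1
  rw [card_fin i₀, card_fin i₀, div_le_one (by positivity)]
  exact pow_le_pow_right₀ hQ1 h

end card

open Classical in
/-- The general case and the self-dual case together. -/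
theorem al_two (p : ℕ) [hpF : Fact p.Prime] (L : IwasawaLog p ℂ_[p]) (K M K₁ M₁ : Type) [Field K]
    [NumberField K] [IsTotallyComplex K] [Field M] [NumberField M] [Field K₁] [NumberField K₁]
    [Field M₁] [NumberField M₁] [Algebra K M] [Algebra K K₁] [Algebra K M₁] [Algebra M M₁]
    [Algebra K₁ M₁] (J M₂ : ℕ → Type) [∀ l, Field (J l)] [∀ l, NumberField (J l)]
    [∀ l, Field (M₂ l)] [∀ l, NumberField (M₂ l)] [∀ l, Algebra K (J l)] [∀ l, Algebra K (M₂ l)]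
    [∀ l, Algebra M (M₂ l)] [∀ l, Algebra K₁ (M₂ l)] [∀ l, Algebra M₁ (M₂ l)]
    [∀ l, Algebra (J l) (M₂ l)] (ε : K₁) (δ : M ≃ₐ[K] M) (P : (ZMod p)[X])
    [Fact (Irreducible P)] [Fintype (AdjoinRoot P)] (a₀ : ∀ l, (M₂ l)ˣ)
    (hs : ∀ l, SitB p K M K₁ M₁ (J l) (M₂ l) ε δ P (a₀ l))
    (m : ℕ) (ζ : ℂ_[p]) (Φ : ℤ_[p][X]) (hPhi : PhiData p m ζ Φ P) (hfr : finrank K M = m)
    (htor : TorOK P δ) (T : Set (K →+* ℂ_[p])) (hTc : PlaceClosed T)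
    (hd : finrank ℚ K = 2 * T.ncard)
    (Lk : AdjoinRoot P → AdjoinRoot P → Prop) (Cs : AdjoinRoot P → AddSubgroup (AdjoinRoot P))
    (Mc : ℕ) (θ : ℝ) (hθ0 : 0 ≤ (Fintype.card (AdjoinRoot P) /
      (Mc * (Fintype.card (AdjoinRoot P) - 1)) : ℝ))
    (hθ : (Fintype.card (AdjoinRoot P) / (Mc * (Fintype.card (AdjoinRoot P) - 1)) : ℝ) ≤ θ)
    (hH : ∀ (l : ℕ) (B : Base p K M K₁ M₁ ε δ P) (D : BaseB B (a₀ l)), Nrml B →
      ∀ (n : ℕ) (E : TauF n B) (aτ : K₁ˣ), NrmInd E (M₂ l) →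
      ∀ ψ₁ : AddChar (ZMod p) ℂ, ψ₁ ≠ 1 →
      ∃ K' : ℕ, HypG (sysB B E (Spl (M₂ l) B.S) D.s0 aτ)
        (psK (Algebra.trace (ZMod p) (AdjoinRoot P)) ψ₁) Lk Cs Mc
        (((p : ℝ) - 1) / finrank K (M₂ l)) (gK (((p : ℝ) - 1) / finrank K K₁)) K') :
    ALev p K M K₁ M₁ ε δ P M₂ a₀ T θ := by
  have hne : Nonempty (AlgebraicClosure ℚ →+* ℂ_[p]) :=
    Pool.Agent.Helper35.RD.nonempty_hom ℚ ℂ_[p]
  have hcK : IsTotallyComplex K₁ := tc_up K K₁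
  have hcM : IsTotallyComplex M₁ := tc_up K₁ M₁
  have := (hs 0).sit.gM
  have := (hs 0).sit.st1
  have := (hs 0).sit.st2
  have hord : orderOf δ = m := (hs 0).sit.ord.trans hfr
  have hPX : AdjoinRoot.root P ≠ 1 := by
    intro h
    have h2 := hPhi.cop 1 one_pos hPhi.one_lt (one_dvd _)
    have h3 : P ∣ X ^ 1 - 1 := by
      rw [← AdjoinRoot.mk_eq_zero, pow_one, map_sub, AdjoinRoot.mk_X, map_one, h, sub_self]
    exact (hs 0).sit.irr.not_isUnit (h2.isUnit_of_dvd' dvd_rfl h3)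
  have lob : S_LOB := Pool.Agent.Helper32.RP.s_lob Pool.Agent.Helper90.RP.s_sub
    Pool.Agent.Helper59.RP.s_bin (Pool.Agent.Helper39.RP.s_sig Pool.Agent.Helper95.RP.s_lat)
    Pool.Agent.Helper99.RP.s_prm
  have hdn : nUr K M ≤ T.ncard := nUr_le_half K M _ hd
  intro lv hlv S₀
  obtain ⟨B, hSB, hNr, hD⟩ := base_lv J M₂ a₀ hs lv hlv S₀
  refine ⟨B, fun i => (hD i).some, gK (((p : ℝ) - 1) / finrank K K₁), _, hSB,
    slow_gK _ (kap_one (hs 0).sit), ?_⟩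
  obtain ⟨hSf, hst, hSp, -, -, -, -⟩ := Pool.Agent.Helper16.PP.p_upr p K M B.S
  obtain ⟨s₀, hs₀⟩ := Pool.Agent.Helper90.RP.Dual.dvd_ncard (K := K) m hfr
    {w ∈ up M B.S | FreeP K w} (hSf.subset fun w hw => hw.1)
    (fun w hw v hv => ⟨hst w hw.1 v hv, free_of_conj hv hw.2⟩)
    (fun w hw => hw.2)
  have hr : B.r ≤ T.ncard + s₀ :=
    rank_leR Pool.Agent.Helper30.PP.p_fun hPhi hord hfr hdn htor B hSf hst hs₀
  intro aτ haτ
  have hE : ∀ i, Nonempty (TauX (T.ncard + s₀) B (a₀ (lv i)) T aτ) := fun i =>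
    a_yext p K M K₁ M₁ (J (lv i)) (M₂ (lv i)) ε δ P (a₀ (lv i)) (hs (lv i)) L T B aτ haτ
      (T.ncard + s₀) (fun 𝔪₀ v hv =>
        lob p ℂ_[p] hne L K M m s₀ δ ζ Φ P hPhi hord hfr T hTc (up M B.S) 𝔪₀ v hv hs₀)
  obtain ⟨ψ₁, hψ₁⟩ := Pool.Agent.Helper12.PP.kap_ex p
  have hK : ∀ i, ∃ K' : ℕ, HypG (sysB B (hE i).some.toTauF (Spl (M₂ (lv i)) B.S)
      (hD i).some.s0 aτ) (psK (Algebra.trace (ZMod p) (AdjoinRoot P)) ψ₁) Lk Cs Mc
        (((p : ℝ) - 1) / finrank K (M₂ (lv i))) (gK (((p : ℝ) - 1) / finrank K K₁)) K' :=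
    fun i => hH (lv i) B (hD i).some hNr _ (hE i).some.toTauF aτ
      (f_aln a_fline p K M K₁ M₁ (J (lv i)) (M₂ (lv i)) ε δ P (a₀ (lv i)) (hs (lv i)) hPX B
        (hD i).some _ (hE i).some.toTauF) ψ₁ hψ₁
  choose K' hK' using hK
  obtain ⟨c, X₁, hc, hlow⟩ := lowG (hs 0).sit B (hE 0).some.toTauF (Spl (M₂ (lv 0)) B.S)
    (hD 0).some.s0 aτ
  refine ⟨T.ncard + s₀, fun i => (hE i).some, _, fun _ => Lk, fun _ => Cs, fun _ => Mc, K', c, X₁,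
    hc, hK', ratio_le inferInstance hr _ _, fun i => Or.inl ?_, hlow⟩
  refine le_trans ?_ hθ
  calc _ ≤ 1 * (Fintype.card (AdjoinRoot P) / (Mc * (Fintype.card (AdjoinRoot P) - 1)) : ℝ) :=
        mul_le_mul_of_nonneg_right (ratio_le inferInstance hr _ _) hθ0
    _ = _ := one_mul _

/-- **AL_GEN**. -/
theorem a_gen : AL_GEN := by
  classical
  intro p hpF L K M K₁ M₁ _ _ _ _ _ _ _ _ _ _ _ _ _ _ J M₂ _ _ _ _ _ _ _ _ _ _ ε δ P _ _ a₀ hs
    hnt m ζ Φ hPhi hfr htor T hTc hd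
  have hp : p.Prime := hpF.out
  have hcK : IsTotallyComplex K₁ := tc_up K K₁
  have hcM : IsTotallyComplex M₁ := @tc_up K₁ M₁ _ _ _ _ _ _
  have hcard : Fintype.card (AdjoinRoot P) = p ^ P.natDegree := card_root
  have hp1 : (1 : ℝ) < p := by exact_mod_cast hp.one_lt
  have hQ1 : (1 : ℝ) < (p : ℝ) ^ P.natDegree :=
    one_lt_pow₀ hp1 (hs 0).sit.irr.natDegree_pos.ne'
  have hQ : (Fintype.card (AdjoinRoot P) /
      ((Fintype.card (AdjoinRoot P) : ℕ) * (Fintype.card (AdjoinRoot P) - 1)) : ℝ) =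
      1 / ((p : ℝ) ^ P.natDegree - 1) := by
    rw [hcard, Nat.cast_pow]
    have h2 : (p : ℝ) ^ P.natDegree - 1 ≠ 0 := by linarith
    have h3 : (p : ℝ) ^ P.natDegree ≠ 0 := by linarith
    field_simp
  refine al_two p L K M K₁ M₁ J M₂ ε δ P a₀ hs m ζ Φ hPhi hfr htor T hTc hd (fun _ _ => True)
    (fun _ => ⊤) (Fintype.card (AdjoinRoot P)) _ ?_ hQ.le ?_
  · rw [hQ]
    exact div_nonneg zero_le_one (by linarith)
  · intro l B D _ n E aτ hN ψ₁ hψ₁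
    exact hypG_gen p K M K₁ M₁ (J l) (M₂ l) ε δ P (a₀ l) (hs l) hnt B D n E aτ hN ψ₁ hψ₁

/-- **AL_SD**. -/
theorem a_sd : AL_SD := by
  classical
  intro p hpF L K M K₁ M₁ _ _ _ _ _ _ _ _ _ _ _ _ _ _ J M₂ _ _ _ _ _ _ _ _ _ _ ε δ P _ _ a₀ hs
    hnt j hSD hj m ζ Φ hPhi hfr htor T hTc hd
  have hp : p.Prime := hpF.out
  have hcK : IsTotallyComplex K₁ := tc_up K K₁
  have hcM : IsTotallyComplex M₁ := @tc_up K₁ M₁ _ _ _ _ _ _
  have hcard : Fintype.card (AdjoinRoot P) = p ^ P.natDegree := card_root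
  have hp1 : (1 : ℝ) < p := by exact_mod_cast hp.one_lt
  have hQ1 : (1 : ℝ) < (p : ℝ) ^ P.natDegree :=
    one_lt_pow₀ hp1 (hs 0).sit.irr.natDegree_pos.ne'
  obtain ⟨Lk, Cs, Mc, hMc, hH⟩ := hypG_sd p K M K₁ M₁ ε δ P (hs 0).sit hnt j hSD hj
  have hMc' : (Mc : ℝ) * p ^ j = (p : ℝ) ^ P.natDegree := by
    rw [hcard] at hMc
    exact_mod_cast hMc
  have hQ0 : (0 : ℝ) < (p : ℝ) ^ P.natDegree := by linarith
  have hMc0 : (0 : ℝ) < Mc := by
    have h5 : (0 : ℝ) < (Mc : ℝ) * p ^ j := by rw [hMc']; exact hQ0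
    have h6 : (0 : ℝ) < (p : ℝ) ^ j := by positivity
    exact (pos_iff_pos_of_mul_pos h5).2 h6
  have hQ : (Fintype.card (AdjoinRoot P) /
      (Mc * (Fintype.card (AdjoinRoot P) - 1)) : ℝ) =
      (p : ℝ) ^ j / ((p : ℝ) ^ P.natDegree - 1) := by
    rw [hcard, Nat.cast_pow]
    have h7 : (p : ℝ) ^ P.natDegree - 1 ≠ 0 := by linarith
    rw [div_eq_div_iff (mul_ne_zero hMc0.ne' h7) h7, ← hMc']
    ring
  refine al_two p L K M K₁ M₁ J M₂ ε δ P a₀ hs m ζ Φ hPhi hfr htor T hTc hd Lk Cs Mc _ ?_ hQ.le ?_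
  · rw [hQ]
    exact div_nonneg (by positivity) (by linarith)
  · intro l B D hNr n E aτ hN ψ₁ hψ₁
    exact hH (J l) (M₂ l) (a₀ l) (hs l) B D hNr n E aτ hN ψ₁ hψ₁

/-- If `J = K` then `M₂ = M₁` (`M = K`). -/
theorem finrank_J {p : ℕ} [Fact p.Prime] {K K₁ J M₂ : Type} [Field K]
    [NumberField K] [Field K₁] [NumberField K₁] [Field J] [NumberField J] [Field M₂]
    [NumberField M₂] [Algebra K K₁] [Algebra K J] [Algebra K M₂] [Algebra K₁ M₂] [Algebra J M₂]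
    {ε : K₁} {P : (ZMod p)[X]} {a₀ : M₂ˣ}
    (hs : SitB p K K K₁ K₁ J M₂ ε (1 : K ≃ₐ[K] K) P a₀)
    (h2 : 2 * finrank K K₁ ≤ finrank K M₂) : 1 < finrank K J ∧ 1 < finrank K₁ M₂ := by
  have := tow_K hs
  have := hs.t4
  have := hs.gM₂
  have hg : IsGalois K₁ M₂ := IsGalois.tower_top_of_isGalois K K₁ M₂
  have hmul : finrank K K₁ * finrank K₁ M₂ = finrank K M₂ := finrank_mul_finrank K K₁ M₂
  have h0 : 0 < finrank K K₁ := finrank_pos
  have h1 : 1 < finrank K₁ M₂ := by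
    by_contra hcon
    have h3 : finrank K₁ M₂ ≤ 1 := by omega
    have h4 : finrank K K₁ * finrank K₁ M₂ ≤ finrank K K₁ * 1 := Nat.mul_le_mul_left _ h3
    omega
  refine ⟨?_, h1⟩
  by_contra hcon
  have hJ0 : 0 < finrank K J := finrank_pos
  have hJ : finrank K J = 1 := by omega
  have hsur : ∀ x : J, ∃ c : K, algebraMap K J c = x := by
    intro x
    obtain ⟨c, hc⟩ := (finrank_eq_one_iff_of_nonzero' (1 : J) one_ne_zero).1 hJ x
    exact ⟨c, by rw [Algebra.algebraMap_eq_smul_one, hc]⟩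
  have hsub : ∀ g : M₂ ≃ₐ[K₁] M₂, g = 1 := by
    intro g
    have h5 := hs.lin₂ (g.restrictScalars K) (fun x => g.commutes x) (fun x => by
      obtain ⟨c, rfl⟩ := hsur x
      rw [← IsScalarTower.algebraMap_apply K J M₂]
      exact (g.restrictScalars K).commutes c)
    ext x
    exact DFunLike.congr_fun h5 x
  have hc : Nat.card (M₂ ≃ₐ[K₁] M₂) = finrank K₁ M₂ := IsGalois.card_aut_eq_finrank K₁ M₂
  have hs1 : Subsingleton (M₂ ≃ₐ[K₁] M₂) := ⟨fun a b => by rw [hsub a, hsub b]⟩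
  have hc1 : Nat.card (M₂ ≃ₐ[K₁] M₂) = 1 := Nat.card_unique
  omega

/-- **AL_ONE**. -/
theorem a_one : AL_ONE := by
  classical
  intro p hpF L K K₁ _ _ _ _ _ _ J M₂ _ _ _ _ _ _ _ _ ε _ _ a₀ hs hμ h2 T hTc hTn
  have hp : p.Prime := hpF.out
  have := (hs 0).sit.gK
  have hC : Cyc p K K₁ ε := ⟨(hs 0).sit.prim, (hs 0).sit.gK, (hs 0).sit.gen⟩
  have h2K := Pool.Agent.Helper90.LE.l_cyc p K K₁ ε hC
  have hcK : IsTotallyComplex K₁ := tc_up K K₁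
  have hnt : NTV p K₁ ε (1 : K ≃ₐ[K] K) (X - 1 : (ZMod p)[X]) := by
    refine Pool.Agent.Helper76.PP.ntv_one p K K₁ ε hC.prim hC.gen ?_
    have h2 : 0 < Module.finrank K K₁ := Module.finrank_pos
    rcases Nat.lt_or_ge 1 (Module.finrank K K₁) with h | h
    · exact h
    · exact absurd (h2K.2.2.1.1 (by omega)) hμ
  have hp2 : p ≠ 2 := Pool.Agent.Helper77.PPO.p_ne_two p K hμ
  have hp1 : (1 : ℝ) < p := by exact_mod_cast hp.one_lt
  have hdeg : (X - 1 : (ZMod p)[X]).natDegree = 1 := by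
    have h := natDegree_X_sub_C (1 : ZMod p)
    rwa [map_one] at h
  have hcard : Fintype.card (AdjoinRoot (X - 1 : (ZMod p)[X])) = p := by
    rw [card_root, hdeg, pow_one]
  have hfr := fun l => finrank_J (hs l) (h2 l)
  intro lv hlv S₀
  obtain ⟨B, hSB, hNr, hD⟩ := base_lv J M₂ a₀ hs lv hlv S₀
  refine ⟨B, fun i => (hD i).some, gK (((p : ℝ) - 1) / finrank K K₁), _, hSB,
    slow_gK _ (kap_one (hs 0).sit), ?_⟩
  have hr : B.r ≤ B.S.card + Units.rank K :=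
    rank1' Pool.Agent.Helper88.LE.l_sun hC.prim hC.gen hμ B
  have hr' : B.r ≤ B.S.card + T.ncard - 1 := by omega
  intro aτ haτ
  have hE : ∀ i, ∃ E : TauX (B.S.card + T.ncard - 1) B (a₀ (lv i)) T aτ,
      NrmInd E.toTauF (M₂ (lv i)) := fun i =>
    (y_ex1 a_yext a_fline p hp2 L K K₁ (J (lv i)) (M₂ (lv i)) ε (a₀ (lv i)) (hs (lv i)) T B
      (hD i).some aτ haτ).2 (hfr (lv i)).1
  choose E hE using hE
  obtain ⟨ψ₁, hψ₁⟩ := Pool.Agent.Helper12.PP.kap_ex p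
  have hK := fun i => hypG_one p K K K₁ K₁ (J (lv i)) (M₂ (lv i)) ε 1 (X - 1) (a₀ (lv i))
    (hs (lv i)) hnt B (hD i).some _ (E i).toTauF aτ (hE i) ψ₁ hψ₁
  choose K' hK' using hK
  have hK2 := fun i => hyp1B p K K K₁ K₁ (J (lv i)) (M₂ (lv i)) ε 1 (X - 1) (a₀ (lv i))
    (hs (lv i)) hnt (hfr (lv i)).2 B (hD i).some _ (E i).toTauF aτ (hE i) ψ₁ hψ₁
  have hK3 : ∀ i, _ := fun i => by
    have := tow_K (hs (lv i))
    have := (hs (lv i)).gM₂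
    exact mernK p K K K₁ K₁ (M₂ (lv i)) ε 1 (X - 1) B (E i).toTauF (h2 (lv i)) (hD i).some.s0 aτ
  obtain ⟨c, X₁, hc, hlow⟩ := lowG (hs 0).sit B (E 0).toTauF (Spl (M₂ (lv 0)) B.S)
    (hD 0).some.s0 aτ
  refine ⟨B.S.card + T.ncard - 1, E, _, fun _ _ _ => False, fun _ _ => ⊥, fun _ => 1, K', c, X₁,
    hc, hK', ratio_le inferInstance hr' _ _, fun i => Or.inr ⟨⟨ψ₁, hK2 i⟩, hK3 i, ?_⟩, hlow⟩
  have hQ : (Fintype.card (AdjoinRoot (X - 1 : (ZMod p)[X])) /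
      (p * (Fintype.card (AdjoinRoot (X - 1 : (ZMod p)[X])) - 1)) : ℝ) = 1 / ((p : ℝ) - 1) := by
    rw [hcard]
    have h2 : (p : ℝ) - 1 ≠ 0 := by linarith
    have h3 : (p : ℝ) ≠ 0 := by linarith
    field_simp
  rw [hQ]
  have h0 : (0 : ℝ) ≤ 1 / ((p : ℝ) - 1) := div_nonneg zero_le_one (by linarith)
  calc _ ≤ 1 * (1 / ((p : ℝ) - 1)) :=
        mul_le_mul_of_nonneg_right (ratio_le inferInstance hr' _ _) h0
    _ = _ := one_mul _

end Pool.Agent.Helper11.TH
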