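import Pool.Agent.Helper3.M3.ABL1
import Pool.Agent.Helper18.M3.ABL4
import Pool.Agent.Helper11.M3.BLGA
import Pool.Agent.Helper32.M3.ABLH
import Pool.Agent.Helper15.M3.ANZO
import Pool.Agent.Helper51.REC.Asm

/-!
# Project TH (MP_fc6b1e_nt, T100), `χ₀ ≡ ω`: the bilinear bounds `bl₁`, `bl₄` with more room
-/

set_option autoImplicit false

namespace Pool.Agent.Helper11.TH

open NumberField Polynomial Module IsDedekindDomain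
open Pool.Agent.Helper51.RP Pool.Agent.Helper42.RD Pool.Agent.Helper42.PP Pool.Agent.Helper42.PP1
open Pool.Agent.Helper42.PB Pool.Agent.Helper11.PP Pool.Agent.Helper76.PP Pool.Agent.Helper76.PB
open Pool.Agent.Helper17.PP (Sys)
open Pool.Agent.Helper51.PP (Chs)
open Pool.Agent.Helper77.PPS (mono_bound fib_bound a1_unb)
open Pool.Agent.Helper11.M3
open Pool.Agent.Helper3.M3 (bl1_nt)
open Pool.Agent.Helper18.M3 (tc_of_prim' psK_mul')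

section fld

variable {p : ℕ} {B B₀ k U Λ C : Type} [Field k] [AddCommGroup U] [Module k U]
    [AddCommGroup Λ] [Module k Λ] [AddCommGroup C] (S : Sys p B B₀ k U Λ C)

open Classical in
/-- The field `bl₁G` of `HypG4`. -/
def Bl1G [Fintype k] [Algebra (ZMod p) k] (ψ : AddChar k ℂ) (e : B → k) (K : ℕ) : Prop :=
  ∀ (i j : ℕ) (t ε : k) (y c : B → k) (α : B → ℂ) (β : Finset B → ℂ) (X : ℝ), 1 ≤ j →
    t ≠ 0 → 0 < X → (∀ q, ‖α q‖ ≤ 1) → (∀ D, ‖β D‖ ≤ (Fintype.card k : ℝ) ^ (2 * D.card)) →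
    (∀ D, β D ≠ 0 → Set.InjOn S.bs (D : Set B) ∧
      ∀ q ∈ D, S.spl q ∧ S.bl q ≠ j ∧ y q ≠ 0 ∧ c q * ε ≠ t * e q) →
    ‖∑ q ∈ S.blk j with (S.spl q ∧ e q = ε), ∑ D ∈ S.mods i, α q * β D * S.chr ψ D y c t q *
      (Real.exp (-(S.N q * S.nm D / X)) : ℂ)‖ ≤
      K * 2 ^ (i + j) * (i + 1) ^ K * (2 : ℝ) ^ (-(min i j : ℝ) / K) *
        Real.exp (-((2 : ℝ) ^ (i + j) / (2 * X)))

open Classical in
/-- The field `bl₄G` of `HypG4`. -/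
def Bl4G [Fintype k] [Algebra (ZMod p) k] (ψ : AddChar k ℂ) (N : B → Prop) (K : ℕ) : Prop :=
  ∀ (i j : ℕ) (y c : B → k) (α : B → ℂ) (β : Finset B → ℂ) (X : ℝ), 1 ≤ j →
    0 < X → (∀ q, ‖α q‖ ≤ 1) → (∀ D, ‖β D‖ ≤ (Fintype.card k : ℝ) ^ (2 * D.card)) →
    (∀ D, β D ≠ 0 → Set.InjOn S.bs (D : Set B) ∧
      ∀ q ∈ D, S.spl q ∧ (S.bl q ≠ j ∨ ∀ q', N q' → ¬ S.spl q') ∧ y q ≠ 0 ∧ c q ≠ 0) →
    ‖∑ P₁ ∈ S.blk j with N P₁, ∑ D ∈ S.mods i, α P₁ * β D *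
      (∏ q' ∈ D, ψ (y q' * (c q' * algebraMap (ZMod p) k (S.kap q' P₁)))) *
      (Real.exp (-(S.N P₁ * S.nm D / X)) : ℂ)‖ ≤
      K * 2 ^ (i + j) * (i + 1) ^ K * (2 : ℝ) ^ (-(min i j : ℝ) / K) *
        Real.exp (-((2 : ℝ) ^ (i + j) / (2 * X)))

end fld

open Classical in
/-- `bl₁G`. -/
theorem a_bl1g (p : ℕ) [Fact p.Prime] (K M K₁ M₁ : Type) [Field K] [NumberField K]
    [Field M] [NumberField M] [Field K₁] [NumberField K₁] [Field M₁] [NumberField M₁]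
    [IsTotallyComplex M₁] [Algebra K M] [Algebra K K₁]
    [Algebra K M₁] [Algebra M M₁] [Algebra K₁ M₁] (ε : K₁)
    (δ : M ≃ₐ[K] M) (P : (ZMod p)[X]) [Fact (Irreducible P)] [Fintype (AdjoinRoot P)]
    (hs : SitW p K M K₁ M₁ ε δ P) (hO : OmS p M₁ ε δ P)
    (B : Base p K M K₁ M₁ ε δ P) (hN : Nrml B) (n : ℕ) (E : TauF n B)
    (V : Set (HeightOneSpectrum (𝓞 K))) (s0 : HeightOneSpectrum (𝓞 K) → ZMod p) (aτ : K₁ˣ)
    (hV : V ⊆ B.Vis) (tr : AdjoinRoot P →ₗ[ZMod p] ZMod p) (ψ₁ : AddChar (ZMod p) ℂ)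
    (htr : tr ≠ 0) (hψ₁ : ψ₁ ≠ 1) (Ka : ℕ)
    (hKa : ∀ j : ℕ, 1 ≤ j → ∑ q ∈ (sysB B E V s0 aτ).blk j,
      (1 : ℝ) / (sysB B E V s0 aτ).N q ≤ Ka / j) :
    ∃ K₀ : ℕ, 1 ≤ K₀ ∧ ∀ K' : ℕ, K₀ ≤ K' →
      Bl1G (sysB B E V s0 aτ) (psK tr ψ₁) (eL B) K' := by
  obtain ⟨n1, -, n3, -⟩ := Pool.Agent.Helper15.M3.a_nzo p K M K₁ M₁ ε δ P hs hO tr htr
  obtain ⟨X2, hC2, hV2⟩ := Pool.Agent.Helper11.M3.a_blg Pool.Agent.Helper51.REC.r_two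
    p K M K₁ M₁ ε δ P hs B hN n E V s0 aτ hV tr ψ₁ hψ₁
  have hA0 : (1 : ℝ) ≤ (Fintype.card (AdjoinRoot P) : ℝ) := by
    exact_mod_cast Fintype.card_pos
  have hA : (1 : ℝ) ≤ (Fintype.card (AdjoinRoot P) : ℝ) ^ 2 := one_le_pow₀ hA0
  obtain ⟨Kb, hKb1, hKb⟩ := blD (sysB B E V s0 aτ) M₁ (a1_unb M₁) Ka (Fintype.card (ZMod p)ˣ)
    ((Fintype.card (AdjoinRoot P) : ℝ) ^ 2) hA hKa
    (fun b₀ ↦ fib_bound B b₀) (ZMod p)ˣ (fun q ↦ q.1.2) (modu p M₁ B.S) (finrank K M₁)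
  refine ⟨Kb, hKb1, fun K' hK' => ?_⟩
  intro i j t ε₁ y c α β X hj ht hX hα hβ hD
  by_cases hq₀ : ∃ q₀ : B.LP, q₀.1.1 ∈ V ∧ eL B q₀ = ε₁
  · obtain ⟨q₀, -, hq₀⟩ := hq₀
    obtain ⟨e₀, he₀⟩ : ∃ e₀ : (ZMod p)ˣ, e₀ = q₀.1.2 := ⟨_, rfl⟩
    have he : ε₁ = algebraMap (ZMod p) (AdjoinRoot P) (e₀ : ZMod p) := by
      rw [he₀, ← hq₀]
      rfl
    have hlab : ∀ q : B.LP, eL B q = ε₁ → q.1.2 = e₀ := by
      intro q hq
      rw [he] at hq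
      have h1 : algebraMap (ZMod p) (AdjoinRoot P) ((q.1.2 : (ZMod p)ˣ) : ZMod p) =
        algebraMap (ZMod p) (AdjoinRoot P) (e₀ : ZMod p) := hq
      exact Units.ext ((algebraMap (ZMod p) (AdjoinRoot P)).injective h1)
    have h1 := hKb (fun q ↦ q.1.1.asIdeal.map (algebraMap (𝓞 K) (𝓞 M₁))) (fun q ↦ B.W q.1.1)
      {q | q.1.1 ∈ V ∧ eL B q = ε₁} {q | q.1.1 ∈ V ∧ y q ≠ 0 ∧ c q * ε₁ ≠ t * eL B q}
      (fun q _ ↦ X2 q (c q) (y q) t 0 e₀)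
      (fun q q₁ ↦ psK tr ψ₁ (y q * (t * (sysB B E V s0 aτ).a q q₁ +
        c q * algebraMap (ZMod p) (AdjoinRoot P) ((sysB B E V s0 aτ).kap q q₁))))
      (fun e ↦ hC2 c y (fun _ ↦ t) (fun _ ↦ 0) e₀ _ _
        (fun q hq ↦ ⟨hq.1.1, hlab q hq.1.2⟩) (fun q hq ↦ hq.1) (fun q hq ↦ by
          have h2 := n3 (y q * t) (-((e₀ : ZMod p) * (q.1.2 : ZMod p)⁻¹ * tr (y q * c q)))
            (bl1_nt tr n1 (y q) t (c q) e₀ q.1.2 hq.2.1 (by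
              have h3 := hq.2.2
              rw [he] at h3
              exact h3))
          rw [mul_zero, zero_mul, map_zero, mul_zero, neg_zero]
          exact h2))
      (fun q hq q₁ hq₁ hne ↦ by
        have h2 := hV2 (c q) (y q) t 0 q q₁ hq.1 hq₁.1 hne
        rw [hlab q₁ hq₁.2] at h2
        rw [h2, zero_mul, add_zero]) i j α β X hj hX hα
      (fun D ↦ by
        have h := hβ D
        rwa [pow_mul] at h)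
      (fun D h ↦ ⟨(hD D h).1, fun q hq ↦ by
        obtain ⟨a1, a2, a3, a4⟩ := (hD D h).2 q hq
        exact ⟨⟨a1, a3, a4⟩, Or.inl a2⟩⟩)
    refine le_trans (le_of_eq ?_) (h1.trans ?_)
    · congr 1
      refine Finset.sum_congr ?_ fun q _ ↦ Finset.sum_congr rfl fun D _ ↦ rfl
      ext q
      simp only [Finset.mem_filter]
      exact Iff.rfl
    · have hm := mono_bound Kb K' i j (min i j) (Real.exp (-((2 : ℝ) ^ (i + j) / (2 * X))))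
        ((i : ℝ) + 1) hKb1 hK' (Real.exp_pos _).le
        (by linarith [Nat.cast_nonneg (α := ℝ) i])
      rw [Nat.cast_min] at hm
      exact hm
  · have h0 : (((sysB B E V s0 aτ).blk j).filter fun q ↦ (sysB B E V s0 aτ).spl q ∧
        eL B q = ε₁) = ∅ := by
      rw [Finset.filter_eq_empty_iff]
      intro q _ h
      exact hq₀ ⟨q, h.1, h.2⟩
    rw [h0, Finset.sum_empty, norm_zero]
    positivity

open Classical in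
/-- `bl₄G`. -/
theorem a_bl4g (p : ℕ) [Fact p.Prime] (K M K₁ M₁ : Type) [Field K] [NumberField K]
    [Field M] [NumberField M] [Field K₁] [NumberField K₁] [Field M₁] [NumberField M₁]
    [IsTotallyComplex M₁] [Algebra K M] [Algebra K K₁]
    [Algebra K M₁] [Algebra M M₁] [Algebra K₁ M₁] (ε : K₁)
    (δ : M ≃ₐ[K] M) (P : (ZMod p)[X]) [Fact (Irreducible P)] [Fintype (AdjoinRoot P)]
    (hs : SitW p K M K₁ M₁ ε δ P) (hO : OmS p M₁ ε δ P)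
    (B : Base p K M K₁ M₁ ε δ P) (n : ℕ) (E : TauF n B)
    (V : Set (HeightOneSpectrum (𝓞 K))) (s0 : HeightOneSpectrum (𝓞 K) → ZMod p) (aτ : K₁ˣ)
    (hV : V ⊆ B.Vis) (tr : AdjoinRoot P →ₗ[ZMod p] ZMod p) (ψ₁ : AddChar (ZMod p) ℂ)
    (htr : tr ≠ 0) (hψ₁ : ψ₁ ≠ 1) (Ka : ℕ)
    (hKa : ∀ j : ℕ, 1 ≤ j → ∑ q ∈ (sysB B E V s0 aτ).blk j,
      (1 : ℝ) / (sysB B E V s0 aτ).N q ≤ Ka / j) :
    ∃ K₀ : ℕ, 1 ≤ K₀ ∧ ∀ K' : ℕ, K₀ ≤ K' → ∀ N : B.LP → Prop,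
      Bl4G (sysB B E V s0 aτ) (psK tr ψ₁) N K' := by
  have htc : IsTotallyComplex K₁ := tc_of_prim' hO.two hs.prim
  obtain ⟨n1, n2, n3, n4⟩ := Pool.Agent.Helper15.M3.a_nzo p K M K₁ M₁ ε δ P hs hO tr htr
  obtain ⟨X1, hC1, hV1⟩ := Pool.Agent.Helper32.M3.a_blh p K M K₁ M₁ ε δ P hs B n E V s0 aτ hV ψ₁
    hψ₁
  have hA0 : (1 : ℝ) ≤ (Fintype.card (AdjoinRoot P) : ℝ) := by
    have : 0 < Fintype.card (AdjoinRoot P) := Fintype.card_pos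
    exact_mod_cast this
  have hA : (1 : ℝ) ≤ (Fintype.card (AdjoinRoot P) : ℝ) ^ 2 := one_le_pow₀ hA0
  obtain ⟨Kb, hKb1, hKb⟩ := blD (sysB B E V s0 aτ) K₁ (a1_unb K₁) Ka (Fintype.card (ZMod p)ˣ)
    ((Fintype.card (AdjoinRoot P) : ℝ) ^ 2) hA hKa
    (fun b₀ ↦ fib_bound B b₀) (ZMod p)ˣ (fun q ↦ q.1.2) (modu p K₁ B.S) (finrank K K₁)
  refine ⟨Kb, hKb1, fun K' hK' N => ?_⟩
  intro i j y c α β X hj hX hα hβ hsupp
  have hi' : (0 : ℝ) ≤ i := Nat.cast_nonneg i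
  have h1 := hKb (fun q ↦ q.1.1.asIdeal.map (algebraMap (𝓞 K) (𝓞 K₁))) (fun q ↦ B.Q q.1.1)
    {q | N q} {q | q.1.1 ∈ V ∧ y q ≠ 0 ∧ c q ≠ 0} (fun q e ↦ X1 q (tr (y q * c q)) e)
    (fun q q₁ ↦ psK tr ψ₁ (y q * (c q * algebraMap (ZMod p) (AdjoinRoot P)
      ((sysB B E V s0 aτ).kap q q₁))))
    (fun e ↦ hC1 (fun q ↦ tr (y q * c q)) e _ _ (fun q hq ↦ hq.2)
      (fun q hq ↦ ⟨hq.1, fun h => mul_ne_zero hq.2.1 hq.2.2 (n1 _ h)⟩))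
    (fun q hq q₁ _ hne ↦ by
      rw [psK_mul']
      exact hV1 (tr (y q * c q)) q q₁ hq.1 hne) i j α β X hj hX hα
    (fun D ↦ by
      have h := hβ D
      rwa [pow_mul] at h)
    (fun D hD ↦ ⟨(hsupp D hD).1, fun q hq ↦ by
      obtain ⟨a1, a2, a3, a4⟩ := (hsupp D hD).2 q hq
      refine ⟨⟨a1, a3, a4⟩, ?_⟩
      rcases a2 with a2 | a2
      · exact Or.inl a2
      · right
        intro q₁ hq₁ he
        exact a2 q₁ hq₁ (((sysB B E V s0 aτ).bsS q q₁ he).1 a1)⟩)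
  refine le_trans (le_of_eq ?_) (h1.trans ?_)
  · congr 1
  · have hm := mono_bound Kb K' i j (min i j) (Real.exp (-((2 : ℝ) ^ (i + j) / (2 * X))))
      ((i : ℝ) + 1) hKb1 hK' (Real.exp_pos _).le (by linarith)
    rw [Nat.cast_min] at hm
    exact hm

end Pool.Agent.Helper11.TH
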