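import Pool.Agent.Helper54.PP.BL1
import Pool.Agent.Helper51.PP.Asm

/-!
# Project TH (MP_fc6b1e_nt, T100): the bilinear bound `bl₁` with larger coefficients
-/

set_option autoImplicit false

namespace Pool.Agent.Helper11.TH

open NumberField IsDedekindDomain Finset
open Pool.Agent.Helper51.PP
open Pool.Agent.Helper17.PP (Sys)

open Classical in
/-- `A2_BL1` with coefficients `≤ A ^ |D|`. -/
theorem bl1A (p : ℕ) (B B₀ k U Λ C : Type) [Field k] [Fintype k] [AddCommGroup U] [Module k U]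
    [AddCommGroup Λ] [Module k Λ] [AddCommGroup C] [Algebra (ZMod p) k] (S : Sys p B B₀ k U Λ C)
    (ψ : AddChar k ℂ) (F : Type) [Field F] [NumberField F] (hF : UniB F) (K₀ ℓ : ℕ)
    (A : ℝ) (hA : 1 ≤ A)
    (hche : ∀ j : ℕ, 1 ≤ j → ∑ q ∈ S.blk j, (1 : ℝ) / S.N q ≤ K₀ / j)
    (hbs : ∀ b₀ : B₀, {q | S.bs q = b₀}.Finite ∧ {q | S.bs q = b₀}.ncard ≤ ℓ)
    (E : Type) [Fintype E] (lab : B → E) (𝔪₀ : Ideal (𝓞 F)) (nn : B → Ideal (𝓞 F)) (d : ℕ)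
    (W : B → HeightOneSpectrum (𝓞 F)) (Xd : B → k → k → k → E → Ideal (𝓞 F) → ℂ)
    (hChs : ∀ (y c : B → k) (t : k) (e : E), t ≠ 0 →
      Chs S F 𝔪₀ nn d {q | S.spl q ∧ lab q = e} {q | S.spl q ∧ y q ≠ 0} W
        (fun q ↦ Xd q (y q) (c q) t e))
    (hval : ∀ (y c t : k) (q q' : B), S.spl q → S.spl q' → S.bs q ≠ S.bs q' →
      Xd q' y c t (lab q) (W q).asIdeal =
        ψ (y * (t * S.a q' q + c * algebraMap (ZMod p) k (S.kap q' q)))) :
    ∃ K : ℕ, 1 ≤ K ∧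
    ∀ (i j : ℕ) (t : k) (y c : B → k) (α : B → ℂ) (β : Finset B → ℂ) (Y : ℝ), 1 ≤ j →
    t ≠ 0 → 0 < Y → (∀ q, ‖α q‖ ≤ 1) → (∀ D, ‖β D‖ ≤ A ^ D.card) →
    (∀ D, β D ≠ 0 → Set.InjOn S.bs (D : Set B) ∧ ∀ q ∈ D, S.spl q ∧ S.bl q ≠ j ∧ y q ≠ 0) →
    ‖∑ q ∈ S.blk j with S.spl q, ∑ D ∈ S.mods i, α q * β D * S.chr ψ D y c t q *
      (Real.exp (-(S.N q * S.nm D / Y)) : ℂ)‖ ≤
      K * 2 ^ (i + j) * (i + 1) ^ K * (2 : ℝ) ^ (-(min i j : ℝ) / K) *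
        Real.exp (-((2 : ℝ) ^ (i + j) / (2 * Y))) := by
  obtain ⟨K, hK, hgen⟩ := gen p B B₀ k U Λ C S F hF K₀ ℓ A hA hche hbs 𝔪₀ d
  refine ⟨(Fintype.card E + 1) * K, ?_, ?_⟩
  · exact le_trans hK (Nat.le_mul_of_pos_left K (Nat.succ_pos _))
  intro i j t y c α β Y hj ht hY hα hβ hsupp
  set Z : ℝ := Real.exp (-((2 : ℝ) ^ (i + j) / (2 * Y))) with hZ
  have key : ∀ e : E, ‖∑ q ∈ S.blk j with (S.spl q ∧ lab q = e),
      ∑ D ∈ S.mods i, α q * β D * S.chr ψ D y c t q *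
        (Real.exp (-(S.N q * S.nm D / Y)) : ℂ)‖ ≤
      K * 2 ^ (i + j) * (i + 1) ^ K * (2 : ℝ) ^ (-(min i j : ℝ) / K) * Z := by
    intro e
    obtain ⟨Up, hUp⟩ : ∃ Up : Set B, Up = {q | S.spl q ∧ lab q = e} := ⟨_, rfl⟩
    have h0 := hChs y c t e ht
    rw [← hUp] at h0
    have h1 := hgen nn Up {q | S.spl q ∧ y q ≠ 0} W
      (fun q ↦ Xd q (y q) (c q) t e) h0 i j α β Y hj hY hα hβ
      (fun D hD ↦ ⟨(hsupp D hD).1, fun q hq ↦
        ⟨((hsupp D hD).2 q hq).1, ((hsupp D hD).2 q hq).2.2⟩⟩)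
    refine le_trans (le_of_eq ?_) h1
    congr 1
    refine Finset.sum_congr ?_ fun q hq ↦ ?_
    · ext q
      rw [Finset.mem_filter, Finset.mem_filter, hUp]
      rfl
    obtain ⟨hqb, hqU⟩ := Finset.mem_filter.mp hq
    rw [hUp] at hqU
    obtain ⟨hqs, hqe⟩ := hqU
    refine Finset.sum_congr rfl fun D _ ↦ ?_
    by_cases hD : β D = 0
    · rw [hD]; ring
    · congr 2
      unfold Sys.chr
      refine Finset.prod_congr rfl fun q' hq' ↦ ?_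
      obtain ⟨a1, a2, a3⟩ := (hsupp D hD).2 q' hq'
      have hbl : S.bl q = j := by
        unfold Sys.blk at hqb
        exact (Finset.mem_filter.mp hqb).2
      have hne : S.bs q ≠ S.bs q' := by
        intro heq
        apply a2
        rw [← hbl]
        unfold Sys.bl
        rw [S.bsN q q' heq]
      have h2 := hval (y q') (c q') t q q' hqs a1 hne
      rw [hqe] at h2
      exact h2.symm
  have hsplit : ∑ q ∈ S.blk j with S.spl q, ∑ D ∈ S.mods i, α q * β D * S.chr ψ D y c t q *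
      (Real.exp (-(S.N q * S.nm D / Y)) : ℂ) =
      ∑ e : E, ∑ q ∈ S.blk j with (S.spl q ∧ lab q = e),
        ∑ D ∈ S.mods i, α q * β D * S.chr ψ D y c t q *
          (Real.exp (-(S.N q * S.nm D / Y)) : ℂ) := by
    rw [← Finset.sum_fiberwise (S.blk j |>.filter fun q ↦ S.spl q) lab]
    refine Finset.sum_congr rfl fun e _ ↦ ?_
    rw [Finset.filter_filter]
  rw [hsplit]
  refine (norm_sum_le _ _).trans ((Finset.sum_le_sum fun e _ ↦ key e).trans ?_)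
  rw [Finset.sum_const, nsmul_eq_mul, Finset.card_univ]
  refine Pool.Agent.Helper54.PP.bound_mono i j (a := Fintype.card E) hK ?_ ?_ Z (Real.exp_pos _).le
  · exact Nat.le_mul_of_pos_left K (Nat.succ_pos _)
  · exact Nat.mul_le_mul_right K (Nat.le_succ _)

end Pool.Agent.Helper11.TH
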