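import Pool.Agent.Helper11.TH.HYPG
import Pool.Agent.Helper17.PB.HYP

/-!
# Project TH (MP_fc6b1e_nt, T100): `Sys.Hyp` for the systems `sysB`, with explicit `ψ` and `g`
-/

set_option autoImplicit false

namespace Pool.Agent.Helper11.TH

open NumberField Polynomial Module IsDedekindDomain
open Pool.Agent.Helper51.RP Pool.Agent.Helper42.RD
open Pool.Agent.Helper77.PPS Pool.Agent.Helper77.PPO
open Pool.Agent.Helper42.PP (Spl Base)
open Pool.Agent.Helper42.PP1 (SitW NTV)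
open Pool.Agent.Helper42.PB (TauF sysB SitB BaseB V_KUM v_blu v_blh)
open Pool.Agent.Helper17.PP (Sys)
open Pool.Agent.Helper17.PP0 (Hyp₀)
open Pool.Agent.Helper17.PB
open Pool.Agent.Helper76.PP (psK)
open Pool.Agent.Helper76.PB (NrmInd V_SMN)
open Pool.Agent.Helper60.PPS (vis_sub)
open Pool.Agent.Helper11.PP (Slow)
open Pool.Agent.Helper17.M3 (trace_ne)

/-- The function `g` is slowly varying. -/
theorem slow_gK (κ : ℝ) (hκ1 : 1 ≤ κ) : Slow (gK κ) (2 ^ (κ - 1)) := by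
  obtain ⟨g1, g2, g3, -⟩ := h_g κ hκ1
  have h2k : (1 : ℝ) ≤ 2 ^ (κ - 1) := Real.one_le_rpow (by norm_num) (by linarith)
  refine ⟨g1, fun Y X h ↦ ?_, fun X _ ↦ g3 X⟩
  calc gK κ Y ≤ gK κ X := g2 Y X h
    _ = 1 * gK κ X := (one_mul _).symm
    _ ≤ 2 ^ (κ - 1) * gK κ X :=
      mul_le_mul_of_nonneg_right h2k (by linarith [g1 X])

/-- `κ ≥ 1` for `κ = (p - 1)/[K₁ : K]`. -/
theorem kap_one {p : ℕ} [Fact p.Prime] {K M K₁ M₁ : Type} [Field K]
    [NumberField K] [Field M] [NumberField M] [Field K₁] [NumberField K₁]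
    [Field M₁] [NumberField M₁] [Algebra K M] [Algebra K K₁]
    [Algebra K M₁] [Algebra M M₁] [Algebra K₁ M₁]
    {ε : K₁} {δ : M ≃ₐ[K] M} {P : (ZMod p)[X]}
    (hs : SitW p K M K₁ M₁ ε δ P) : 1 ≤ ((p : ℝ) - 1) / finrank K K₁ := by
  have := hs.gK
  have hdv := Pool.Agent.Helper14.RD.finrank_dvd_pred p K K₁ ε hs.prim hs.gen
  have hp1 : 1 < p := (Fact.out : p.Prime).one_lt
  have hd0 : 0 < finrank K K₁ := finrank_pos
  rw [le_div_iff₀ (by exact_mod_cast hd0), one_mul]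
  have h : finrank K K₁ ≤ p - 1 := Nat.le_of_dvd (by omega) hdv
  have h' : ((finrank K K₁ : ℕ) : ℝ) ≤ ((p - 1 : ℕ) : ℝ) := by exact_mod_cast h
  rwa [Nat.cast_sub hp1.le, Nat.cast_one] at h'

open Classical in
/-- The lower bound for the family. -/
theorem lowG {p : ℕ} [Fact p.Prime] {K M K₁ M₁ : Type} [Field K]
    [NumberField K] [Field M] [NumberField M] [Field K₁] [NumberField K₁] [IsTotallyComplex K₁]
    [Field M₁] [NumberField M₁] [Algebra K M] [Algebra K K₁]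
    [Algebra K M₁] [Algebra M M₁] [Algebra K₁ M₁]
    {ε : K₁} {δ : M ≃ₐ[K] M} {P : (ZMod p)[X]} [Fact (Irreducible P)]
    (hs : SitW p K M K₁ M₁ ε δ P) (B : Base p K M K₁ M₁ ε δ P) {n : ℕ} (E : TauF n B)
    (V : Set (HeightOneSpectrum (𝓞 K))) (s0 : HeightOneSpectrum (𝓞 K) → ZMod p) (aτ : K₁ˣ) :
    ∃ c X₁ : ℝ, 0 < c ∧ ∀ X : ℝ, X₁ ≤ X → ∃ Q : Finset B.LP,
      c * (X * gK (((p : ℝ) - 1) / finrank K K₁) X) ≤
      ∑ b ∈ Q.powerset with (sysB B E V s0 aτ).Fam b,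
      Real.exp (-((sysB B E V s0 aτ).nm b / X)) := by
  have := hs.gK
  obtain ⟨b, hb1, hb2⟩ := fam_ex p K M K₁ M₁ ε δ P hs B (sysB B E V s0 aτ).cl₀
  exact lowB p K M K₁ M₁ ε δ P B E V s0 aτ ⟨b, hb1, hb2⟩

open Classical in
/-- `Sys.Hyp` with the same `ψ` and `g` as in `HypG`. -/
theorem hyp1B (p : ℕ) [Fact p.Prime] (K M K₁ M₁ J M₂ : Type) [Field K]
    [NumberField K] [Field M] [NumberField M] [Field K₁] [NumberField K₁] [IsTotallyComplex K₁]
    [Field M₁] [NumberField M₁] [IsTotallyComplex M₁] [Field J] [NumberField J] [Field M₂]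
    [NumberField M₂] [Algebra K M] [Algebra K K₁] [Algebra K M₁] [Algebra M M₁] [Algebra K₁ M₁]
    [Algebra K J] [Algebra K M₂] [Algebra M M₂] [Algebra K₁ M₂] [Algebra M₁ M₂] [Algebra J M₂]
    (ε : K₁) (δ : M ≃ₐ[K] M) (P : (ZMod p)[X]) [Fact (Irreducible P)] [Fintype (AdjoinRoot P)]
    (a₀ : M₂ˣ) (hB : SitB p K M K₁ M₁ J M₂ ε δ P a₀) (hnt : NTV p M₁ ε δ P)
    (hlt : 1 < finrank K₁ M₂)
    (B : Base p K M K₁ M₁ ε δ P) (D : BaseB B a₀) (n : ℕ) (E : TauF n B) (aτ : K₁ˣ)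
    (hN : NrmInd E M₂) (ψ₁ : AddChar (ZMod p) ℂ) (hψ₁ : ψ₁ ≠ 1) :
    ∃ K' : ℕ, (sysB B E (Spl M₂ B.S) D.s0 aτ).Hyp
      (psK (Algebra.trace (ZMod p) (AdjoinRoot P)) ψ₁) ψ₁
      (gK (((p : ℝ) - 1) / finrank K K₁)) K' := by
  have w2 : V_SMN := Pool.Agent.Helper76.PB.a_smn
  have w3 : V_KUM := Pool.Agent.Helper76.PB.a_kum
  have hs := hB.sit
  have := hs.st1
  have := hs.st2
  have := hs.gM
  have := hs.gK
  have := hs.gMK
  have := hB.t1
  have := hB.t2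
  have := hB.t3
  have := hB.gM₂
  have t6 : IsScalarTower K K₁ M₂ := IsScalarTower.of_algebraMap_eq fun x ↦ by
    rw [IsScalarTower.algebraMap_apply K M₁ M₂, IsScalarTower.algebraMap_apply K K₁ M₁,
      ← IsScalarTower.algebraMap_apply K₁ M₁ M₂]
  have hV : Spl M₂ B.S ⊆ B.Vis := vis_sub (K₁ := M₁) B.S
  have hdv := Pool.Agent.Helper14.RD.finrank_dvd_pred p K K₁ ε hs.prim hs.gen
  set tr : AdjoinRoot P →ₗ[ZMod p] ZMod p := Algebra.trace (ZMod p) (AdjoinRoot P) with htrd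
  have htr : tr ≠ 0 := trace_ne P
  have hpsK : psK tr ψ₁ ≠ 1 := by
    intro h
    apply one_ne_zero (α := ZMod p)
    apply Pool.Agent.Helper12.PP.kap_psi p ψ₁ hψ₁
    obtain ⟨x, hx⟩ := Pool.Agent.Helper12.PP.kap_surj p P tr htr 1
    have h1 := DFunLike.congr_fun h x
    rw [← hx]
    exact h1
  obtain ⟨Ka, hKa⟩ := sv0B p K M K₁ M₁ M₂ ε δ P B E hdv D.s0 aτ
    ((Fintype.card (AdjoinRoot P) : ℝ) + 4)
  have hSVa := hKa Ka le_rfl
  obtain ⟨X1, hC1, hV1⟩ := v_blu p K M K₁ M₁ ε δ P hs hnt B n E (Spl M₂ B.S) D.s0 aτ hV tr ψ₁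
    htr hψ₁
  obtain ⟨X2, hC2, hV2⟩ := v_blh p K M K₁ M₁ ε δ P hs B n E (Spl M₂ B.S) D.s0 aτ hV ψ₁ hψ₁
  obtain ⟨Kb, hKb1, hKb⟩ := Pool.Agent.Helper51.PP.bl1 p B.LP (HeightOneSpectrum (𝓞 K))
    (AdjoinRoot P) (Fin B.r → AdjoinRoot P) (Fin n → AdjoinRoot P) (Fin B.t → ZMod p)
    (sysB B E (Spl M₂ B.S) D.s0 aτ) (psK tr ψ₁) M₁
    (a1_unb M₁) Ka (Fintype.card (ZMod p)ˣ) hSVa.che (fun b₀ ↦ fib_bound B b₀) (ZMod p)ˣ
    (fun q ↦ q.1.2) _ _ _ _ X1 hC1 hV1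
  obtain ⟨Kc, hKc1, hKc⟩ := Pool.Agent.Helper51.PP.bl2 p B.LP (HeightOneSpectrum (𝓞 K))
    (AdjoinRoot P) (Fin B.r → AdjoinRoot P) (Fin n → AdjoinRoot P) (Fin B.t → ZMod p)
    (sysB B E (Spl M₂ B.S) D.s0 aτ) ψ₁ K₁
    (a1_unb K₁) Ka (Fintype.card (ZMod p)ˣ) hSVa.che (fun b₀ ↦ fib_bound B b₀) (ZMod p)ˣ
    (fun q ↦ q.1.2) _ _ _ _ X2 hC2 hV2
  obtain ⟨Kd, hKd1, hKd⟩ := w2 p K M K₁ M₁ J M₂ ε δ P a₀ hB B D n E hN aτ tr ψ₁ htr hψ₁
  obtain ⟨Ke, hKe⟩ := mernB p K M K₁ M₁ M₂ ε δ P B E hlt D.s0 aτ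
  set K' : ℕ := max (max (max Ka Kb) (max Kc Kd)) Ke with hK'
  have hl : max (max Ka Kb) (max Kc Kd) ≤ K' := le_max_left _ _
  have hKa' : Ka ≤ K' := ((le_max_left _ _).trans (le_max_left _ _)).trans hl
  have hKb' : Kb ≤ K' := ((le_max_right _ _).trans (le_max_left _ _)).trans hl
  have hKc' : Kc ≤ K' := ((le_max_left _ _).trans (le_max_right _ _)).trans hl
  have hKd' : Kd ≤ K' := ((le_max_right _ _).trans (le_max_right _ _)).trans hl
  have hKe' : Ke ≤ K' := le_max_right _ _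
  have hSV := hKa K' hKa'
  have hH₀ : Hyp₀ (sysB B E (Spl M₂ B.S) D.s0 aτ) (psK tr ψ₁)
      (gK (((p : ℝ) - 1) / finrank K K₁)) K' :=
      { one_le := hSV.one_le
        ψ_ne := hpsK
        che := hSV.che
        g_one := hSV.g_one
        g_mono := hSV.g_mono
        ht := hSV.ht
        mers := hSV.mers
        sm := by
          have h := hKd K' hKd'
          unfold Pool.Agent.Helper76.PP.SmF at h
          intro D y χ n hn hD hinj hne hx
          have h' := h D y χ n hn hD hinj hne hx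
          convert h' using 2
          ext q
          simp only [Finset.mem_filter]
        kum := w3 p K M K₁ M₁ J M₂ ε δ P a₀ hB hnt B D n E aτ
        bl₁ := by
          intro i j t y c α β Y hj ht hY hα hβ hD
          refine (hKb i j t y c α β Y hj ht hY hα hβ hD).trans ?_
          have hm := mono_bound Kb K' i j (min i j) (Real.exp (-((2 : ℝ) ^ (i + j) / (2 * Y))))
            ((i : ℝ) + 1) hKb1 hKb' (Real.exp_pos _).le (by linarith [Nat.cast_nonneg (α := ℝ) i])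
          rw [Nat.cast_min] at hm
          exact hm }
  refine ⟨K', ?_⟩
  exact
    { one_le := hH₀.one_le
      ψ_ne := hpsK
      ψ₁_ne := hψ₁
      che := hH₀.che
      g_one := hH₀.g_one
      g_mono := hH₀.g_mono
      ht := hH₀.ht
      mers := hH₀.mers
      mern := hKe K' hKe'
      sm := hH₀.sm
      kum := hH₀.kum
      bl₁ := hH₀.bl₁
      bl₂ := by
        intro i j s' α β Y hi hj hs' hY hα hβ
        refine (hKc i j s' α β Y hi hj hs' hY hα hβ).trans ?_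
        have hi' : (1 : ℝ) ≤ i := by exact_mod_cast hi
        have hm := mono_bound Kc K' i j (min i j) (Real.exp (-((2 : ℝ) ^ (i + j) / (2 * Y))))
          ((i : ℝ) + j) hKc1 hKc' (Real.exp_pos _).le
          (by linarith [Nat.cast_nonneg (α := ℝ) j])
        rw [Nat.cast_min] at hm
        exact hm }

open Classical in
/-- Mertens, lower bound, for the primes which are not split. -/
theorem mernK (p : ℕ) [hp : Fact p.Prime] (K M K₁ M₁ M₂ : Type) [Field K]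
    [NumberField K] [Field M] [NumberField M] [Field K₁] [NumberField K₁] [Field M₁]
    [NumberField M₁] [Field M₂] [NumberField M₂] [Algebra K M] [Algebra K K₁] [Algebra K M₁]
    [Algebra M M₁] [Algebra K₁ M₁] [Algebra K M₂] [Algebra K₁ M₂]
    (ε : K₁) (δ : M ≃ₐ[K] M) (P : (ZMod p)[X]) [Fact (Irreducible P)]
    (B : Base p K M K₁ M₁ ε δ P) {n : ℕ} (E : TauF n B) [IsScalarTower K K₁ M₂] [IsGalois K K₁]
    [IsGalois K M₂] (h2 : 2 * finrank K K₁ ≤ finrank K M₂)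
    (s0 : HeightOneSpectrum (𝓞 K) → ZMod p) (aτ : K₁ˣ) :
    ∃ K₃ : ℝ, ∀ m n' : ℕ, 1 ≤ m → m ≤ n' →
      ((p : ℝ) - 1) / finrank K M₂ * Real.log (n' / m) - K₃ ≤
      ∑ q ∈ (sysB B E (Spl M₂ B.S) s0 aτ).below n' with
        ¬ (sysB B E (Spl M₂ B.S) s0 aτ).spl q ∧ m ≤ (sysB B E (Spl M₂ B.S) s0 aτ).bl q,
        (1 : ℝ) / (sysB B E (Spl M₂ B.S) s0 aτ).N q := by
  have hp1 : 1 < p := hp.out.one_lt
  have hpr : (0 : ℝ) < (p : ℝ) - 1 := by
    have : (1 : ℝ) < p := by exact_mod_cast hp1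
    linarith
  have hd0 : 0 < finrank K K₁ := finrank_pos
  have hd0' : (0 : ℝ) < finrank K K₁ := by exact_mod_cast hd0
  set κ : ℝ := ((p : ℝ) - 1) / finrank K K₁ with hκ
  have hM0' : (0 : ℝ) < finrank K M₂ := by
    have : 0 < finrank K M₂ := by omega
    exact_mod_cast this
  set κs : ℝ := ((p : ℝ) - 1) / finrank K M₂ with hκs
  have hs0 : 0 < κs := div_pos hpr hM0'
  have hsκ : 2 * κs ≤ κ := by
    rw [hκ, hκs, mul_div_assoc', div_le_div_iff₀ hM0' hd0']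
    have h2' : (2 : ℝ) * finrank K K₁ ≤ finrank K M₂ := by exact_mod_cast h2
    nlinarith
  obtain ⟨C, hC, hms⟩ := lab2 p K M K₁ M₁ M₂ ε δ P B
  have hC0 : 0 ≤ C := hC.nonneg
  have hC' : PSys (sysB B E (Spl M₂ B.S) s0 aτ).N C := hC
  have hC2 : PSys (sysB B E (Spl M₂ B.S) s0 aτ).N (2 * C) :=
    Pool.Agent.Helper4.PPS.psys_mono hC' (by linarith)
  obtain ⟨Kn, hKn⟩ := h_mer (2 * C) (κ - κs)
  have hmern := hKn p _ _ _ _ _ _ (sysB B E (Spl M₂ B.S) s0 aτ)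
    {q : B.LP | q.1.1 ∉ Spl M₂ B.S} hC2 (fun x hx ↦ by
    have h := (abs_le.1 (hms x hx).1)
    have h' := (abs_le.1 (hms x hx).2)
    have hsum : ms (sysB B E (Spl M₂ B.S) s0 aτ).N
        ({q : B.LP | q.1.1 ∉ Spl M₂ B.S}.indicator fun _ ↦ 1) x =
        ms (fun q : B.LP ↦ nv q.1.1) (fun _ ↦ 1) x -
          ms (fun q : B.LP ↦ nv q.1.1) ({q : B.LP | q.1.1 ∈ Spl M₂ B.S}.indicator fun _ ↦ 1) x := by
      show ms (fun q : B.LP ↦ nv q.1.1) ({q : B.LP | q.1.1 ∉ Spl M₂ B.S}.indicator fun _ ↦ 1) x = _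
      unfold ms
      rw [← Finset.sum_sub_distrib]
      refine Finset.sum_congr rfl fun q _ ↦ ?_
      by_cases hq : q.1.1 ∈ Spl M₂ B.S
      · rw [Set.indicator_of_notMem (by simpa using hq), Set.indicator_of_mem (by simpa using hq)]
        ring
      · rw [Set.indicator_of_mem (by simpa using hq), Set.indicator_of_notMem (by simpa using hq)]
        ring
    rw [hsum, abs_le]
    have e : (κ - κs) * Real.log (Real.log x) =
      κ * Real.log (Real.log x) - κs * Real.log (Real.log x) := by ring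
    rw [e]
    constructor <;> linarith [h.1, h.2, h'.1, h'.2])
  refine ⟨Kn, fun m n' hm hmn ↦ ?_⟩
  have h := hmern m n' hm hmn
  have hl : 0 ≤ Real.log ((n' : ℝ) / m) := by
    refine Real.log_nonneg ?_
    have hm' : (0 : ℝ) < m := by exact_mod_cast hm
    rw [le_div_iff₀ hm', one_mul]
    exact_mod_cast hmn
  have h1' : κs * Real.log (n' / m) ≤ (κ - κs) * Real.log (n' / m) :=
    mul_le_mul_of_nonneg_right (by linarith) hl
  have h2' : κs * Real.log (n' / m) - Kn ≤ (κ - κs) * Real.log (n' / m) - Kn := by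
    linarith
  refine h2'.trans (h.trans (le_of_eq ?_))
  refine Finset.sum_congr ?_ fun q _ ↦ rfl
  ext q
  simp only [Finset.mem_filter]
  rfl

end Pool.Agent.Helper11.TH
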