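import Pool.Agent.Helper38.TH.Defs
import Pool.Agent.Helper11.TH.BL1A
import Pool.Agent.Helper17.M3.HYP3
import Pool.Agent.Helper66.M3.ATAU
import Pool.Agent.Helper59.M3.ABL3
import Pool.Agent.Helper11.M3.BLGA
import Pool.Agent.Helper51.REC.Asm
import Pool.Agent.Helper76.PB.Asm

/-!
# Project TH (MP_fc6b1e_nt, T100): the analytic hypotheses `HypG` of the systems `sysB`
-/

set_option autoImplicit false

namespace Pool.Agent.Helper11.TH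

open NumberField Polynomial Module IsDedekindDomain
open Pool.Agent.Helper51.RP Pool.Agent.Helper42.RD
open Pool.Agent.Helper77.PPS Pool.Agent.Helper77.PPO
open Pool.Agent.Helper42.PP (Spl Base)
open Pool.Agent.Helper42.PP1 (SitW NTV)
open Pool.Agent.Helper42.PB (TauF sysB SitB BaseB V_KUM v_blu v_blh)
open Pool.Agent.Helper17.PP (Sys)
open Pool.Agent.Helper17.PP0 (Hyp₀)
open Pool.Agent.Helper17.PB
open Pool.Agent.Helper76.PP (psK)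
open Pool.Agent.Helper76.PB (NrmInd V_SMN)
open Pool.Agent.Helper60.PPS (vis_sub)
open Pool.Agent.Helper11.M3
open Pool.Agent.Helper38.WY (NTV3 SDual)
open Pool.Agent.Helper38.TH (HypG)
open Pool.Agent.Helper17.M3 (ntv_of_ntv3 trace_ne)
open Pool.Agent.Helper11.R (NTV2 ntv_of_ntv2)

open Classical in
/-- The two-sided Mertens bound for the split primes gives the field `merK`. -/
theorem merKB (p : ℕ) [hp : Fact p.Prime] (K M K₁ M₁ M₂ : Type) [Field K]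
    [NumberField K] [Field M] [NumberField M] [Field K₁] [NumberField K₁] [Field M₁]
    [NumberField M₁] [Field M₂] [NumberField M₂] [Algebra K M] [Algebra K K₁] [Algebra K M₁]
    [Algebra M M₁] [Algebra K₁ M₁] [Algebra K M₂] [Algebra K₁ M₂]
    (ε : K₁) (δ : M ≃ₐ[K] M) (P : (ZMod p)[X]) [Fact (Irreducible P)]
    (B : Base p K M K₁ M₁ ε δ P) {n : ℕ} (E : TauF n B) [IsScalarTower K K₁ M₂] [IsGalois K K₁]
    [IsGalois K M₂] (s0 : HeightOneSpectrum (𝓞 K) → ZMod p) (aτ : K₁ˣ) :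
    ∃ K₀ : ℕ, ∀ K' : ℕ, K₀ ≤ K' → ∀ m n' : ℕ, 1 ≤ m → m ≤ n' →
      ((p : ℝ) - 1) / finrank K M₂ * Real.log (n' / m) - K' ≤
        ∑ q ∈ (sysB B E (Spl M₂ B.S) s0 aτ).below n' with
          (sysB B E (Spl M₂ B.S) s0 aτ).spl q ∧ m ≤ (sysB B E (Spl M₂ B.S) s0 aτ).bl q,
          (1 : ℝ) / (sysB B E (Spl M₂ B.S) s0 aτ).N q := by
  obtain ⟨C, hC, hms⟩ := lab2 p K M K₁ M₁ M₂ ε δ P B
  obtain ⟨K3, hK3⟩ := h_mer C (((p : ℝ) - 1) / finrank K M₂)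
  have hN : PSys (sysB B E (Spl M₂ B.S) s0 aτ).N C := hC
  refine ⟨⌈K3⌉₊, fun K' hK' m n' hm hmn ↦ ?_⟩
  have h6 := hK3 p B.LP _ _ _ _ _ (sysB B E (Spl M₂ B.S) s0 aτ) {q | q.1.1 ∈ Spl M₂ B.S} hN
    (fun x hx ↦ (hms x hx).2) m n' hm hmn
  have h7 : K3 ≤ K' := (Nat.le_ceil K3).trans (by exact_mod_cast hK')
  have h9 : ((p : ℝ) - 1) / finrank K M₂ * Real.log (n' / m) - K' ≤
      ((p : ℝ) - 1) / finrank K M₂ * Real.log (n' / m) - K3 := by linarith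
  exact h9.trans h6

open Classical in
/-- `HypG` for the systems `sysB`: only `M_pos`, `card`, `two` and `bl₃` have to be checked. -/
theorem hypG_mk (p : ℕ) [Fact p.Prime]
    (K M K₁ M₁ J M₂ : Type) [Field K]
    [NumberField K] [Field M] [NumberField M] [Field K₁] [NumberField K₁]
    [Field M₁] [NumberField M₁] [IsTotallyComplex M₁] [Field J] [NumberField J] [Field M₂]
    [NumberField M₂] [Algebra K M] [Algebra K K₁] [Algebra K M₁] [Algebra M M₁] [Algebra K₁ M₁]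
    [Algebra K J] [Algebra K M₂] [Algebra M M₂] [Algebra K₁ M₂] [Algebra M₁ M₂] [Algebra J M₂]
    (ε : K₁) (δ : M ≃ₐ[K] M) (P : (ZMod p)[X]) [Fact (Irreducible P)] [Fintype (AdjoinRoot P)]
    (a₀ : M₂ˣ) (hB : SitB p K M K₁ M₁ J M₂ ε δ P a₀) (hnt : NTV p M₁ ε δ P)
    (B : Base p K M K₁ M₁ ε δ P) (D : BaseB B a₀) (n : ℕ) (E : TauF n B) (aτ : K₁ˣ)
    (hN : NrmInd E M₂) (ψ₁ : AddChar (ZMod p) ℂ) (hψ₁ : ψ₁ ≠ 1)
    (Lk : AdjoinRoot P → AdjoinRoot P → Prop) (Cs : AdjoinRoot P → AddSubgroup (AdjoinRoot P))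
    (Mc : ℕ) (hM0 : 0 < Mc) (hCs : ∀ t : AdjoinRoot P, t ≠ 0 → Nat.card (Cs t) = Mc)
    (htwo : ∀ t s c₁ y₁ c₂ y₂ : AdjoinRoot P, t ≠ 0 → s ∈ Cs t → s ≠ 0 → (c₁ ≠ 0 ∨ y₁ ≠ 0) →
      (c₂ ≠ 0 ∨ y₂ ≠ 0) → ¬ Lk (s * c₁) (t * y₁) → ¬ Lk (s * c₂) (t * y₂) →
      c₁ ≠ 0 ∧ y₁ ≠ 0 ∧ Lk (y₁ * c₂) (c₁ * y₂))
    (hbl : ∀ Ka : ℕ, (∀ j : ℕ, 1 ≤ j → ∑ q ∈ (sysB B E (Spl M₂ B.S) D.s0 aτ).blk j,
        (1 : ℝ) / (sysB B E (Spl M₂ B.S) D.s0 aτ).N q ≤ Ka / j) →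
      ∃ K₀ : ℕ, ∀ K' : ℕ, K₀ ≤ K' → Bl3F (sysB B E (Spl M₂ B.S) D.s0 aτ)
        (psK (Algebra.trace (ZMod p) (AdjoinRoot P)) ψ₁) Lk K') :
    ∃ K' : ℕ, HypG (sysB B E (Spl M₂ B.S) D.s0 aτ)
      (psK (Algebra.trace (ZMod p) (AdjoinRoot P)) ψ₁) Lk Cs Mc
      (((p : ℝ) - 1) / finrank K M₂) (gK (((p : ℝ) - 1) / finrank K K₁)) K' := by
  have w2 : V_SMN := Pool.Agent.Helper76.PB.a_smn
  have w3 : V_KUM := Pool.Agent.Helper76.PB.a_kum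
  have hs := hB.sit
  have := hs.st1
  have := hs.st2
  have := hs.gM
  have := hs.gK
  have := hs.gMK
  have := hB.t1
  have := hB.t2
  have := hB.t3
  have := hB.gM₂
  have t6 : IsScalarTower K K₁ M₂ := IsScalarTower.of_algebraMap_eq fun x ↦ by
    rw [IsScalarTower.algebraMap_apply K M₁ M₂, IsScalarTower.algebraMap_apply K K₁ M₁,
      ← IsScalarTower.algebraMap_apply K₁ M₁ M₂]
  have hp : p.Prime := Fact.out
  have hV : Spl M₂ B.S ⊆ B.Vis := vis_sub (K₁ := M₁) B.S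
  have hdv := Pool.Agent.Helper14.RD.finrank_dvd_pred p K K₁ ε hs.prim hs.gen
  have hp1 : 1 < p := hp.one_lt
  set tr : AdjoinRoot P →ₗ[ZMod p] ZMod p := Algebra.trace (ZMod p) (AdjoinRoot P) with htrd
  have htr : tr ≠ 0 := trace_ne P
  have hpsK : psK tr ψ₁ ≠ 1 := by
    intro h
    apply one_ne_zero (α := ZMod p)
    apply Pool.Agent.Helper12.PP.kap_psi p ψ₁ hψ₁
    obtain ⟨x, hx⟩ := Pool.Agent.Helper12.PP.kap_surj p P tr htr 1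
    have h1 := DFunLike.congr_fun h x
    rw [← hx]
    exact h1
  have hQ1 : (1 : ℝ) ≤ Fintype.card (AdjoinRoot P) := by
    have : 0 < Fintype.card (AdjoinRoot P) := Fintype.card_pos
    exact_mod_cast this
  obtain ⟨Ka, hKa⟩ := sv0B p K M K₁ M₁ M₂ ε δ P B E hdv D.s0 aτ
    ((Fintype.card (AdjoinRoot P) : ℝ) + 4)
  have hSVa := hKa Ka le_rfl
  obtain ⟨Kg, hKg⟩ := sv0B p K M K₁ M₁ M₂ ε δ P B E hdv D.s0 aτ
    (((Fintype.card (AdjoinRoot P) : ℝ) + 1) ^ 2)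
  obtain ⟨Km, hKm⟩ := merKB p K M K₁ M₁ M₂ ε δ P B E D.s0 aτ
  obtain ⟨X1, hC1, hV1⟩ := v_blu p K M K₁ M₁ ε δ P hs hnt B n E (Spl M₂ B.S) D.s0 aτ hV tr ψ₁
    htr hψ₁
  obtain ⟨Kb, hKb1, hKb⟩ := bl1A p B.LP (HeightOneSpectrum (𝓞 K))
    (AdjoinRoot P) (Fin B.r → AdjoinRoot P) (Fin n → AdjoinRoot P) (Fin B.t → ZMod p)
    (sysB B E (Spl M₂ B.S) D.s0 aτ) (psK tr ψ₁) M₁
    (a1_unb M₁) Ka (Fintype.card (ZMod p)ˣ) ((Fintype.card (AdjoinRoot P) : ℝ) ^ 2)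
    (one_le_pow₀ hQ1) hSVa.che
    (fun b₀ ↦ fib_bound B b₀) (ZMod p)ˣ
    (fun q ↦ q.1.2) _ _ _ _ X1 hC1 hV1
  obtain ⟨Kc, hKc⟩ := hbl Ka hSVa.che
  obtain ⟨Kd, hKd1, hKd⟩ := w2 p K M K₁ M₁ J M₂ ε δ P a₀ hB B D n E hN aτ tr ψ₁ htr hψ₁
  set K' : ℕ := max (max Ka Kb) (max (max Kc Kd) (max Kg Km)) with hK'
  have hKa' : Ka ≤ K' := by omega
  have hKb' : Kb ≤ K' := by omega
  have hKc' : Kc ≤ K' := by omega
  have hKd' : Kd ≤ K' := by omega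
  have hKg' : Kg ≤ K' := by omega
  have hKm' : Km ≤ K' := by omega
  have hSV := hKa K' hKa'
  have hSVg := hKg K' hKg'
  have hblG : ∀ (i j : ℕ) (t : AdjoinRoot P) (y c : B.LP → AdjoinRoot P) (α : B.LP → ℂ)
      (β : Finset B.LP → ℂ) (Y : ℝ), 1 ≤ j →
      t ≠ 0 → 0 < Y → (∀ q, ‖α q‖ ≤ 1) →
      (∀ D, ‖β D‖ ≤ ((Fintype.card (AdjoinRoot P) : ℝ) ^ 2) ^ D.card) →
      (∀ D', β D' ≠ 0 → Set.InjOn (sysB B E (Spl M₂ B.S) D.s0 aτ).bs (D' : Set B.LP) ∧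
        ∀ q ∈ D', (sysB B E (Spl M₂ B.S) D.s0 aτ).spl q ∧
          (sysB B E (Spl M₂ B.S) D.s0 aτ).bl q ≠ j ∧ y q ≠ 0) →
      ‖∑ q ∈ (sysB B E (Spl M₂ B.S) D.s0 aτ).blk j with
          (sysB B E (Spl M₂ B.S) D.s0 aτ).spl q,
        ∑ D' ∈ (sysB B E (Spl M₂ B.S) D.s0 aτ).mods i, α q * β D' *
          (sysB B E (Spl M₂ B.S) D.s0 aτ).chr (psK tr ψ₁) D' y c t q *
        (Real.exp (-((sysB B E (Spl M₂ B.S) D.s0 aτ).N q *
          (sysB B E (Spl M₂ B.S) D.s0 aτ).nm D' / Y)) : ℂ)‖ ≤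
        K' * 2 ^ (i + j) * (i + 1) ^ K' * (2 : ℝ) ^ (-(min i j : ℝ) / K') *
          Real.exp (-((2 : ℝ) ^ (i + j) / (2 * Y))) := by
    intro i j t y c α β Y hj ht hY hα hβ hD
    refine (hKb i j t y c α β Y hj ht hY hα hβ hD).trans ?_
    have hm := mono_bound Kb K' i j (min i j) (Real.exp (-((2 : ℝ) ^ (i + j) / (2 * Y))))
      ((i : ℝ) + 1) hKb1 hKb' (Real.exp_pos _).le (by linarith [Nat.cast_nonneg (α := ℝ) i])
    rw [Nat.cast_min] at hm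
    exact hm
  have hH₀ : Hyp₀ (sysB B E (Spl M₂ B.S) D.s0 aτ) (psK tr ψ₁)
      (gK (((p : ℝ) - 1) / finrank K K₁)) K' :=
      { one_le := hSV.one_le
        ψ_ne := hpsK
        che := hSV.che
        g_one := hSV.g_one
        g_mono := hSV.g_mono
        ht := hSV.ht
        mers := hSV.mers
        sm := by
          have h := hKd K' hKd'
          unfold Pool.Agent.Helper76.PP.SmF at h
          intro D y χ n hn hD hinj hne hx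
          have h' := h D y χ n hn hD hinj hne hx
          convert h' using 2
          ext q
          simp only [Finset.mem_filter]
        kum := w3 p K M K₁ M₁ J M₂ ε δ P a₀ hB hnt B D n E aτ
        bl₁ := by
          intro i j t y c α β Y hj ht hY hα hβ hD
          refine hblG i j t y c α β Y hj ht hY hα (fun D' ↦ (hβ D').trans ?_) hD
          refine pow_le_pow_left₀ (by positivity) ?_ _
          calc (Fintype.card (AdjoinRoot P) : ℝ) = Fintype.card (AdjoinRoot P) * 1 := by ring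
            _ ≤ Fintype.card (AdjoinRoot P) * Fintype.card (AdjoinRoot P) := by gcongr
            _ = (Fintype.card (AdjoinRoot P) : ℝ) ^ 2 := by ring }
  have hd2 : 0 < finrank K M₂ := finrank_pos
  refine ⟨K', ?_⟩
  exact
    { toHyp₀ := hH₀
      M_pos := hM0
      card := hCs
      two := htwo
      bl₃ := hKc K' hKc'
      κ_pos := by
        have h1 : (1 : ℝ) < p := by exact_mod_cast hp1
        have h2 : (0 : ℝ) < finrank K M₂ := by exact_mod_cast hd2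
        exact div_pos (by linarith) h2
      htG := hSVg.ht
      merK := hKm K' hKm'
      blG := by
        intro i j t y c α β Y hj ht hY hα hβ hD
        refine hblG i j t y c α β Y hj ht hY hα (fun D' ↦ ?_) hD
        have h := hβ D'
        rwa [pow_mul] at h }

open Classical in
/-- Case 1: no condition (`M = 1`); for instance `χ₀ = 1`, `ω ≠ 1`. -/
theorem hypG_one (p : ℕ) [Fact p.Prime]
    (K M K₁ M₁ J M₂ : Type) [Field K]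
    [NumberField K] [Field M] [NumberField M] [Field K₁] [NumberField K₁]
    [Field M₁] [NumberField M₁] [IsTotallyComplex M₁] [Field J] [NumberField J] [Field M₂]
    [NumberField M₂] [Algebra K M] [Algebra K K₁] [Algebra K M₁] [Algebra M M₁] [Algebra K₁ M₁]
    [Algebra K J] [Algebra K M₂] [Algebra M M₂] [Algebra K₁ M₂] [Algebra M₁ M₂] [Algebra J M₂]
    (ε : K₁) (δ : M ≃ₐ[K] M) (P : (ZMod p)[X]) [Fact (Irreducible P)] [Fintype (AdjoinRoot P)]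
    (a₀ : M₂ˣ) (hB : SitB p K M K₁ M₁ J M₂ ε δ P a₀) (hnt : NTV p M₁ ε δ P)
    (B : Base p K M K₁ M₁ ε δ P) (D : BaseB B a₀) (n : ℕ) (E : TauF n B) (aτ : K₁ˣ)
    (hN : NrmInd E M₂) (ψ₁ : AddChar (ZMod p) ℂ) (hψ₁ : ψ₁ ≠ 1) :
    ∃ K' : ℕ, HypG (sysB B E (Spl M₂ B.S) D.s0 aτ)
      (psK (Algebra.trace (ZMod p) (AdjoinRoot P)) ψ₁) (fun _ _ ↦ False) (fun _ ↦ ⊥) 1
      (((p : ℝ) - 1) / finrank K M₂) (gK (((p : ℝ) - 1) / finrank K K₁)) K' := by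
  refine hypG_mk p K M K₁ M₁ J M₂ ε δ P a₀ hB hnt B D n E aτ hN ψ₁ hψ₁ (fun _ _ ↦ False)
    (fun _ ↦ ⊥) 1 one_pos ?_ ?_ ?_
  · intro t _
    exact Nat.card_unique
  · intro t s c₁ y₁ c₂ y₂ _ hs hs0 _ _ _ _
    exact absurd (AddSubgroup.mem_bot.1 hs) hs0
  · intro Ka _
    refine ⟨0, fun K' _ ↦ ?_⟩
    intro i j t s c y α β Y _ _ _ _ _ _ hLk
    exact hLk.elim

open Classical in
/-- Case 3: the generic case. -/
theorem hypG_gen (p : ℕ) [Fact p.Prime]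
    (K M K₁ M₁ J M₂ : Type) [Field K]
    [NumberField K] [Field M] [NumberField M] [Field K₁] [NumberField K₁]
    [Field M₁] [NumberField M₁] [IsTotallyComplex M₁] [Field J] [NumberField J] [Field M₂]
    [NumberField M₂] [Algebra K M] [Algebra K K₁] [Algebra K M₁] [Algebra M M₁] [Algebra K₁ M₁]
    [Algebra K J] [Algebra K M₂] [Algebra M M₂] [Algebra K₁ M₂] [Algebra M₁ M₂] [Algebra J M₂]
    (ε : K₁) (δ : M ≃ₐ[K] M) (P : (ZMod p)[X]) [Fact (Irreducible P)] [Fintype (AdjoinRoot P)]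
    (a₀ : M₂ˣ) (hB : SitB p K M K₁ M₁ J M₂ ε δ P a₀) (hnt2 : NTV2 p M₁ ε δ P)
    (B : Base p K M K₁ M₁ ε δ P) (D : BaseB B a₀) (n : ℕ) (E : TauF n B) (aτ : K₁ˣ)
    (hN : NrmInd E M₂) (ψ₁ : AddChar (ZMod p) ℂ) (hψ₁ : ψ₁ ≠ 1) :
    ∃ K' : ℕ, HypG (sysB B E (Spl M₂ B.S) D.s0 aτ)
      (psK (Algebra.trace (ZMod p) (AdjoinRoot P)) ψ₁) (fun _ _ ↦ True) (fun _ ↦ ⊤)
      (Fintype.card (AdjoinRoot P))
      (((p : ℝ) - 1) / finrank K M₂) (gK (((p : ℝ) - 1) / finrank K K₁)) K' := by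
  have hnt : NTV p M₁ ε δ P := ntv_of_ntv2 hnt2
  have hs := hB.sit
  have := hs.st1
  have := hs.st2
  have := hs.gM
  have := hs.gK
  have := hs.gMK
  have := hB.t1
  have := hB.t2
  have := hB.t3
  have := hB.gM₂
  have t6 : IsScalarTower K K₁ M₂ := IsScalarTower.of_algebraMap_eq fun x ↦ by
    rw [IsScalarTower.algebraMap_apply K M₁ M₂, IsScalarTower.algebraMap_apply K K₁ M₁,
      ← IsScalarTower.algebraMap_apply K₁ M₁ M₂]
  have hV : Spl M₂ B.S ⊆ B.Vis := vis_sub (K₁ := M₁) B.S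
  refine hypG_mk p K M K₁ M₁ J M₂ ε δ P a₀ hB hnt B D n E aτ hN ψ₁ hψ₁ (fun _ _ ↦ True)
    (fun _ ↦ ⊤) _ Fintype.card_pos ?_ ?_ ?_
  · intro t _
    rw [Nat.card_congr (AddSubgroup.topEquiv (G := AdjoinRoot P)).toEquiv,
      Nat.card_eq_fintype_card]
  · intro t s c₁ y₁ c₂ y₂ _ _ _ _ _ h _
    exact absurd trivial h
  · intro Ka hche
    obtain ⟨lab2, X2, hC2, hV2⟩ := Pool.Agent.Helper11.R.blu2 Pool.Agent.Helper51.REC.r_two p K M K₁ M₁ ε δ P hs hnt2 B n E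
      (Spl M₂ B.S) D.s0 aτ hV (Algebra.trace (ZMod p) (AdjoinRoot P)) ψ₁ (trace_ne P) hψ₁
    obtain ⟨Kc, hKc1, hKc⟩ := Pool.Agent.Helper11.R.a2_bl3 p B.LP (HeightOneSpectrum (𝓞 K))
      (AdjoinRoot P) (Fin B.r → AdjoinRoot P) (Fin n → AdjoinRoot P) (Fin B.t → ZMod p)
      (sysB B E (Spl M₂ B.S) D.s0 aτ) (psK (Algebra.trace (ZMod p) (AdjoinRoot P)) ψ₁) M₁
      (a1_unb M₁) Ka (Fintype.card (ZMod p)ˣ) hche (fun b₀ ↦ fib_bound B b₀)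
      ((ZMod p)ˣ × (ZMod p)ˣ) lab2 _ _ _ _ X2 hC2 hV2
    refine ⟨Kc, fun K' hKc' ↦ ?_⟩
    intro i j t s c y α β Y hi hj hij ht hs' hcy _ hY hα hβ
    refine (hKc i j t s c y α β Y hi hj hij ht hs' hcy hY hα hβ).trans ?_
    have hi' : (1 : ℝ) ≤ i := by exact_mod_cast hi
    have hm := mono_bound Kc K' i j (min i j) (Real.exp (-((2 : ℝ) ^ (i + j) / (2 * Y))))
      ((i : ℝ) + j) hKc1 hKc' (Real.exp_pos _).le
      (by linarith [Nat.cast_nonneg (α := ℝ) j])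
    rw [Nat.cast_min] at hm
    exact hm

open Classical in
/-- Case 2: the self-dual and the unitary case. -/
theorem hypG_sd (p : ℕ) [Fact p.Prime] (K M K₁ M₁ : Type) [Field K]
    [NumberField K] [Field M] [NumberField M] [Field K₁] [NumberField K₁]
    [Field M₁] [NumberField M₁] [IsTotallyComplex M₁] [Algebra K M] [Algebra K K₁]
    [Algebra K M₁] [Algebra M M₁] [Algebra K₁ M₁]
    (ε : K₁) (δ : M ≃ₐ[K] M) (P : (ZMod p)[X]) [Fact (Irreducible P)] [Fintype (AdjoinRoot P)]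
    (hs : SitW p K M K₁ M₁ ε δ P) (hnt3 : NTV3 p M₁ ε δ P) (j : ℕ)
    (hSD : SDual p M₁ ε δ P j) (hj : j = 0 ∨ P.natDegree = 2 * j) :
    ∃ (Lk : AdjoinRoot P → AdjoinRoot P → Prop) (Cs : AdjoinRoot P → AddSubgroup (AdjoinRoot P))
      (Mc : ℕ), Mc * p ^ j = Fintype.card (AdjoinRoot P) ∧
    ∀ (J M₂ : Type) [Field J] [NumberField J] [Field M₂]
    [NumberField M₂] [Algebra K J] [Algebra K M₂] [Algebra M M₂] [Algebra K₁ M₂] [Algebra M₁ M₂]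
    [Algebra J M₂] (a₀ : M₂ˣ), SitB p K M K₁ M₁ J M₂ ε δ P a₀ →
    ∀ (B : Base p K M K₁ M₁ ε δ P) (D : BaseB B a₀), Nrml B → ∀ (n : ℕ) (E : TauF n B) (aτ : K₁ˣ),
    NrmInd E M₂ → ∀ ψ₁ : AddChar (ZMod p) ℂ, ψ₁ ≠ 1 →
    ∃ K' : ℕ, HypG (sysB B E (Spl M₂ B.S) D.s0 aτ)
      (psK (Algebra.trace (ZMod p) (AdjoinRoot P)) ψ₁) Lk Cs Mc
      (((p : ℝ) - 1) / finrank K M₂) (gK (((p : ℝ) - 1) / finrank K K₁)) K' := by
  have hnt : NTV p M₁ ε δ P := ntv_of_ntv3 hnt3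
  have := hs.st1
  have := hs.st2
  have := hs.gM
  have := hs.gK
  have := hs.gMK
  obtain ⟨τ, hττ, hτ2, hτ0, hτ1, hNz⟩ := Pool.Agent.Helper66.M3.a_tau p K M K₁ M₁ ε δ P hs hnt3 j
    hSD hj
  obtain ⟨Cs, Mc, hM0, hCs, hM1, hM2, htwo⟩ := Pool.Agent.Helper22.M3.s_sdl p (AdjoinRoot P) τ hττ
    hτ2
  have hP0 : P ≠ 0 := hs.irr.ne_zero
  have hfd : FiniteDimensional (ZMod p) (AdjoinRoot P) := (AdjoinRoot.powerBasis hP0).finite
  have hcard : Fintype.card (AdjoinRoot P) = p ^ P.natDegree := by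
    rw [Module.card_eq_pow_finrank (K := ZMod p) (V := AdjoinRoot P), ZMod.card,
      (AdjoinRoot.powerBasis hP0).finrank, AdjoinRoot.powerBasis_dim]
  have hMc : Mc * p ^ j = Fintype.card (AdjoinRoot P) := by
    by_cases hj0 : j = 0
    · rw [hj0, pow_zero, mul_one]
      exact hM1 (hτ0 hj0)
    · have h1 := hM2 (hτ1 hj0)
      have h2 : P.natDegree = 2 * j := hj.resolve_left hj0
      have h3 : Mc = p ^ j := by
        rw [hcard, h2, mul_comm 2 j, pow_mul] at h1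
        exact Nat.pow_left_injective (by norm_num : (2 : ℕ) ≠ 0) h1
      rw [h3, hcard, h2, ← pow_add, two_mul]
  refine ⟨fun η η' ↦ η + τ η' ≠ 0, Cs, Mc, hMc, ?_⟩
  intro J M₂ _ _ _ _ _ _ _ _ _ _ a₀ hB B D hNr n E aτ hN ψ₁ hψ₁
  have := hB.t1
  have := hB.t2
  have := hB.t3
  have := hB.gM₂
  have hV : Spl M₂ B.S ⊆ B.Vis := vis_sub (K₁ := M₁) B.S
  refine hypG_mk p K M K₁ M₁ J M₂ ε δ P a₀ hB hnt B D n E aτ hN ψ₁ hψ₁ (fun η η' ↦ η + τ η' ≠ 0)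
    Cs Mc hM0 hCs (fun t s c₁ y₁ c₂ y₂ ht hs' hs0 h1 h2 h3 h4 ↦
        htwo t s c₁ y₁ c₂ y₂ ht hs' hs0 h1 h2 h3 h4) ?_
  intro Ka hche
  obtain ⟨Kc, hKc1, hKc⟩ := Pool.Agent.Helper59.M3.a_bl3
    (Pool.Agent.Helper11.M3.a_blg Pool.Agent.Helper51.REC.r_two) p K M K₁ M₁ ε δ P hs B hNr n E
    (Spl M₂ B.S) D.s0 aτ hV τ hNz ψ₁ hψ₁ Ka hche
  exact ⟨Kc, hKc⟩

end Pool.Agent.Helper11.TH
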