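import Pool.Agent.Helper11.TH.ALEV
import Pool.Agent.Helper11.TH.BL14
import Pool.Agent.Helper11.M3.FIN4
import Pool.Agent.Helper11.M3.SMO
import Pool.Agent.Helper42.WY.AZT
import Pool.Agent.Helper42.WY.MOM4
import Pool.Agent.Helper42.TH.GoalsALO

/-!
# Project TH (MP_fc6b1e_nt, T100), `χ₀ ≡ ω`: `HypG4` and the arithmetic part (`ALevO`)
-/

set_option autoImplicit false

namespace Pool.Agent.Helper11.TH

open NumberField Polynomial Module IsDedekindDomain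
open Pool.Agent.Helper51.RP Pool.Agent.Helper42.RD Pool.Agent.Helper42.PP Pool.Agent.Helper42.PP1
open Pool.Agent.Helper42.PB Pool.Agent.Helper42.PW Pool.Agent.Helper11.PP
open Pool.Agent.Helper38.WY Pool.Agent.Helper42.WY
open Pool.Agent.Helper76.PP (psK)
open Pool.Agent.Helper76.PB (NrmInd V_SMN)
open Pool.Agent.Helper11.M3
open Pool.Agent.Helper11.PB (tc_up)
open Pool.Agent.Helper38.TH (HypG4 MerN)
open Pool.Agent.Helper42.TH (ALevO AL_OMC)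
open Pool.Agent.Helper77.PPS (gK)
open Pool.Agent.Helper17.PB
open Pool.Agent.Helper17.M3 (trace_ne)
open Pool.Agent.Helper60.PPS (vis_sub)

open Classical in
/-- `HypG4` for `subS (sysB ..) W`. -/
theorem hypG4B (p : ℕ) [hpF : Fact p.Prime] (K M K₁ M₁ J M₂ : Type) [Field K]
    [NumberField K] [Field M] [NumberField M] [Field K₁] [NumberField K₁] [IsTotallyComplex K₁]
    [Field M₁] [NumberField M₁] [IsTotallyComplex M₁] [Field J] [NumberField J] [Field M₂]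
    [NumberField M₂] [Algebra K M] [Algebra K K₁] [Algebra K M₁] [Algebra M M₁] [Algebra K₁ M₁]
    [Algebra K J] [Algebra K M₂] [Algebra M M₂] [Algebra K₁ M₂] [Algebra M₁ M₂] [Algebra J M₂]
    (ε : K₁) (δ : M ≃ₐ[K] M) (P : (ZMod p)[X]) [Fact (Irreducible P)] [Fintype (AdjoinRoot P)]
    (a₀ : M₂ˣ) (hB : SitB p K M K₁ M₁ J M₂ ε δ P a₀) (hO : OmS p M₁ ε δ P)
    (hlt : 1 < finrank K₁ M₂)
    (B : Base p K M K₁ M₁ ε δ P) (D : BaseB B a₀) (hNr : Nrml B)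
    (n : ℕ) (E : TauF n B) (aτ : K₁ˣ) (hN : NrmInd E M₂) (hZK : ZK E M₂)
    (W : Submodule (AdjoinRoot P) (Fin B.r → AdjoinRoot P)) (hW : IsCompl W (Zt B M₂))
    (ψ₁ : AddChar (ZMod p) ℂ) (hψ₁ : ψ₁ ≠ 1) :
    ∃ K' : ℕ, HypG4 (subS (sysB B E (Spl M₂ B.S) D.s0 aτ) W)
      (psK (Algebra.trace (ZMod p) (AdjoinRoot P)) ψ₁) (eL B)
      (fun q => ¬ (subS (sysB B E (Spl M₂ B.S) D.s0 aτ) W).spl q)
      (gK (((p : ℝ) - 1) / finrank K K₁)) K' := by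
  have hs := hB.sit
  have := hs.st1
  have := hs.st2
  have := hs.gM
  have := hs.gK
  have := hs.gMK
  have := hB.t1
  have := hB.t2
  have := hB.t3
  have := hB.gM₂
  have t6 : IsScalarTower K K₁ M₂ := IsScalarTower.of_algebraMap_eq fun x ↦ by
    rw [IsScalarTower.algebraMap_apply K M₁ M₂, IsScalarTower.algebraMap_apply K K₁ M₁,
      ← IsScalarTower.algebraMap_apply K₁ M₁ M₂]
  have hV : Spl M₂ B.S ⊆ B.Vis := vis_sub (K₁ := M₁) B.S
  have hdv := Pool.Agent.Helper14.RD.finrank_dvd_pred p K K₁ ε hs.prim hs.gen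
  obtain ⟨tr, htrd⟩ : ∃ tr : AdjoinRoot P →ₗ[ZMod p] ZMod p,
    tr = Algebra.trace (ZMod p) (AdjoinRoot P) := ⟨_, rfl⟩
  rw [← htrd]
  have htr : tr ≠ 0 := by
    rw [htrd]
    exact trace_ne P
  have hpsK : psK tr ψ₁ ≠ 1 := by
    intro h
    apply one_ne_zero (α := ZMod p)
    apply Pool.Agent.Helper12.PP.kap_psi p ψ₁ hψ₁
    obtain ⟨x, hx⟩ := Pool.Agent.Helper12.PP.kap_surj p P tr htr 1
    have h1 := DFunLike.congr_fun h x
    rw [← hx]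
    exact h1
  obtain ⟨Ka, hKa⟩ := sv0B p K M K₁ M₁ M₂ ε δ P B E hdv D.s0 aτ
    ((Fintype.card (AdjoinRoot P) : ℝ) + 4)
  have hSVa := hKa Ka le_rfl
  obtain ⟨Kg, hKg⟩ := sv0B p K M K₁ M₁ M₂ ε δ P B E hdv D.s0 aτ
    (((Fintype.card (AdjoinRoot P) : ℝ) + 1) ^ 2)
  obtain ⟨Kb, hKb1, hKb⟩ := Pool.Agent.Helper3.M3.a_bl1
    (Pool.Agent.Helper11.M3.a_blg Pool.Agent.Helper51.REC.r_two) Pool.Agent.Helper15.M3.a_nzo
    p K M K₁ M₁ ε δ P hs hO B hNr n E (Spl M₂ B.S) D.s0 aτ hV tr ψ₁ htr hψ₁ Ka hSVa.che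
  obtain ⟨Kc, hKc1, hKc⟩ := Pool.Agent.Helper18.M3.a_bl4 Pool.Agent.Helper32.M3.a_blh
    Pool.Agent.Helper15.M3.a_nzo
    p K M K₁ M₁ ε δ P hs hO B n E (Spl M₂ B.S) D.s0 aτ hV tr ψ₁ htr hψ₁ Ka hSVa.che
  obtain ⟨Kd, hKd1, hKd⟩ := Pool.Agent.Helper64.M3.a_bl5
    (Pool.Agent.Helper11.M3.a_blg Pool.Agent.Helper51.REC.r_two) Pool.Agent.Helper32.M3.a_blh
    Pool.Agent.Helper15.M3.a_nzo
    p K M K₁ M₁ ε δ P hs hO B hNr n E (Spl M₂ B.S) D.s0 aτ hV tr ψ₁ htr hψ₁ Ka hSVa.che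
  obtain ⟨Kb', hKb1', hKb'⟩ := a_bl1g p K M K₁ M₁ ε δ P hs hO B hNr n E (Spl M₂ B.S) D.s0 aτ hV
    tr ψ₁ htr hψ₁ Ka hSVa.che
  obtain ⟨Kc', hKc1', hKc'⟩ := a_bl4g p K M K₁ M₁ ε δ P hs hO B n E (Spl M₂ B.S) D.s0 aτ hV
    tr ψ₁ htr hψ₁ Ka hSVa.che
  obtain ⟨Ke, hKe⟩ := mernB p K M K₁ M₁ M₂ ε δ P B E hlt D.s0 aτ
  obtain ⟨Ks, hKs1, hKs⟩ := Pool.Agent.Helper11.M3.a_smo Pool.Agent.Helper76.PB.a_smn
    Pool.Agent.Helper42.WY.a_zto
    p K M K₁ M₁ J M₂ ε δ P a₀ hB B D n E hN hZK aτ tr ψ₁ htr hψ₁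
  have hkum := Pool.Agent.Helper61.M3.a_kum Pool.Agent.Helper98.M3.a_kue
    p K M K₁ M₁ J M₂ ε δ P a₀ hB B D n E aτ W hW.inf_eq_bot
  obtain ⟨K', hK'⟩ : ∃ K' : ℕ, K' = Ka + Kg + Kb + Kc + Kd + Kb' + Kc' + Ke + Ks := ⟨_, rfl⟩
  have hSV := hKa K' (by omega)
  have hSVg := hKg K' (by omega)
  refine ⟨K', ?_⟩
  have hHyp : Hyp₄ (subS (sysB B E (Spl M₂ B.S) D.s0 aτ) W) (psK tr ψ₁) (eL B)
      (fun q => ¬ (subS (sysB B E (Spl M₂ B.S) D.s0 aτ) W).spl q) ⊥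
      (gK (((p : ℝ) - 1) / finrank K K₁)) K' := by
    refine mk4 _ _ (eL B) _ ⊥ _ K' ?_ (eL_ne B) (Or.inr ⟨fun q hq => hq, rfl⟩)
      ?_ (hKs K' (by omega) W hW.sup_eq_top) hkum (hKb K' (by omega))
      (hKc K' (by omega) _) (hKd K' (by omega) _ ⊥ (Or.inl rfl))
    · exact
        { one_le := hSV.one_le
          ψ_ne := hpsK
          che := hSV.che
          g_one := hSV.g_one
          g_mono := hSV.g_mono
          ht := hSV.ht
          mers := hSV.mers }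
    · intro m n' hm hn
      refine (hKe K' (by omega) m n' hm hn).trans (le_of_eq ?_)
      refine Finset.sum_congr ?_ fun q _ => rfl
      ext q
      simp only [Finset.mem_filter]
      exact Iff.rfl
  exact
    { toHyp₄ := hHyp
      nspl := fun q hq => hq
      htG := hSVg.ht
      bl₁G := hKb' K' (by omega)
      bl₄G := by
        intro i j y c α β X hj hX hα hβ hD
        exact hKc' K' (by omega) (fun q => ¬ (sysB B E (Spl M₂ B.S) D.s0 aτ).spl q)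
          i j y c α β X hj hX hα hβ (fun D' h => ⟨(hD D' h).1, fun q hq =>
            ⟨((hD D' h).2 q hq).1, Or.inr fun q' h => h, ((hD D' h).2 q hq).2⟩⟩) }

/-- If `J ≠ K` then `[M₂ : K] ≥ 2 [K₁ : K]`. -/
theorem two_le_M2 {p : ℕ} [hpF : Fact p.Prime] {K M K₁ M₁ J M₂ : Type} [Field K] [NumberField K]
    [Field M] [NumberField M] [Field K₁] [NumberField K₁] [Field M₁] [NumberField M₁] [Field J]
    [NumberField J] [Field M₂] [NumberField M₂] [Algebra K M] [Algebra K K₁] [Algebra K M₁]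
    [Algebra M M₁] [Algebra K₁ M₁] [Algebra K J] [Algebra K M₂] [Algebra M M₂] [Algebra K₁ M₂]
    [Algebra M₁ M₂] [Algebra J M₂] {ε : K₁} {δ : M ≃ₐ[K] M} {P : (ZMod p)[X]} {a₀ : M₂ˣ}
    (hB : SitB p K M K₁ M₁ J M₂ ε δ P a₀) (hJ : finrank K J ≠ 1) :
    2 * finrank K K₁ ≤ finrank K M₂ ∧ 1 < finrank K₁ M₂ := by
  have hs := hB.sit
  have := hs.st2
  have := hs.gK
  have := hB.t1
  have := hB.t3
  have := hB.t4
  have t6 : IsScalarTower K K₁ M₂ := IsScalarTower.of_algebraMap_eq fun x ↦ by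
    rw [IsScalarTower.algebraMap_apply K M₁ M₂, IsScalarTower.algebraMap_apply K K₁ M₁,
      ← IsScalarTower.algebraMap_apply K₁ M₁ M₂]
  obtain ⟨l, hl⟩ := hB.degJ
  have hmul : finrank K K₁ * finrank K₁ M₂ = finrank K M₂ := finrank_mul_finrank K K₁ M₂
  have hmul2 : finrank K J * finrank J M₂ = finrank K M₂ := finrank_mul_finrank K J M₂
  have h0 : 0 < finrank K₁ M₂ := finrank_pos
  have h00 : 0 < finrank K K₁ := finrank_pos
  have h1 : 1 < finrank K₁ M₂ := by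
    by_contra hcon
    have h3 : finrank K₁ M₂ = 1 := by omega
    rw [h3, mul_one] at hmul
    have hl0 : l ≠ 0 := by
      rintro rfl
      exact hJ (by rw [hl, pow_zero])
    have h4 : p ∣ finrank K K₁ := by
      rw [hmul, ← hmul2, hl]
      exact (dvd_pow_self p hl0).mul_right _
    have h5 : finrank K K₁ ∣ p - 1 :=
      Pool.Agent.Helper14.RD.finrank_dvd_pred p K K₁ ε hs.prim hs.gen
    have hp1 := hpF.out.one_lt
    have h6 := Nat.le_of_dvd (by omega) (h4.trans h5)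
    omega
  refine ⟨?_, h1⟩
  rw [← hmul, mul_comm 2]
  exact Nat.mul_le_mul_left _ h1

/-- `Zt` depends only on the set of the elements which become `p`-th powers. -/
theorem zt_mono {p : ℕ} [hpF : Fact p.Prime] {K M K₁ M₁ : Type} [Field K] [NumberField K]
    [Field M] [NumberField M] [Field K₁] [NumberField K₁] [Field M₁] [NumberField M₁]
    [Algebra K M] [Algebra K K₁] [Algebra K M₁] [Algebra M M₁] [Algebra K₁ M₁] {ε : K₁}
    {δ : M ≃ₐ[K] M} {P : (ZMod p)[X]} [Fact (Irreducible P)] (B : Base p K M K₁ M₁ ε δ P)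
    (M₂ M₃ : Type) [Field M₂] [Algebra M M₂] [Field M₃] [Algebra M M₃]
    (h : ∀ y : Mˣ, Pw2 p M₂ y → Pw2 p M₃ y) : Zt B M₂ ≤ Zt B M₃ := by
  unfold Zt
  refine Submodule.span_mono ?_
  rintro x ⟨y, h1, h2, h3, h4⟩
  exact ⟨y, h1, h2, h y h3, h4⟩

open Classical in
/-- **AL_OMC**. -/
theorem a_omc : AL_OMC := by
  intro p hpF K M K₁ M₁ _ _ _ _ _ _ _ _ _ _ _ _ _ _ J M₂ _ _ _ _ _ _ _ _ _ _ ε δ P _ _ a₀ hs
    hO hJ hpw T hT
  have hp : p.Prime := hpF.out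
  have hcK : IsTotallyComplex K₁ := tc_up K K₁
  have hcM : IsTotallyComplex M₁ := @tc_up K₁ M₁ _ _ _ _ _ _
  have hcard : Fintype.card (AdjoinRoot P) = p := by
    rw [card_root, hO.deg, pow_one]
  have hp1 : (1 : ℝ) < p := by exact_mod_cast hp.one_lt
  have hfr := fun l => two_le_M2 (hs l) (hJ l)
  intro lv hlv S₀
  obtain ⟨B, hSB, hNr, hD⟩ := base_lv J M₂ a₀ hs lv hlv S₀
  obtain ⟨W, hW0⟩ := exists_isCompl (Zt B (M₂ 0))
  have hZt : ∀ l, Zt B (M₂ l) = Zt B (M₂ 0) := fun l =>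
    le_antisymm (zt_mono B _ _ (hpw l 0)) (zt_mono B _ _ (hpw 0 l))
  have hW : ∀ l, IsCompl W (Zt B (M₂ l)) := fun l => by
    rw [hZt l]
    exact hW0.symm
  obtain ⟨n, hn, hE⟩ := hT B
  refine ⟨B, fun i => (hD i).some, gK (((p : ℝ) - 1) / finrank K K₁), _, W, hSB,
    slow_gK _ (kap_one (hs 0).sit), fun i => (hW (lv i)).sup_eq_top, ?_⟩
  intro aτ haτ
  have hE' : ∀ i, ∃ E : TauX n B (a₀ (lv i)) T aτ, NrmInd E.toTauF (M₂ (lv i)) := fun i =>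
    hE (lv i) (hD i).some aτ haτ
  choose E hEN using hE'
  obtain ⟨ψ₁, hψ₁⟩ := Pool.Agent.Helper12.PP.kap_ex p
  obtain ⟨c, X₁, hc, hlow⟩ := lowG (hs 0).sit B (E 0).toTauF (Spl (M₂ (lv 0)) B.S)
    (hD 0).some.s0 aτ
  have hfin : FiniteDimensional (AdjoinRoot P) W := inferInstance
  have hcW : (Nat.card W : ℝ) = (p : ℝ) ^ finrank (AdjoinRoot P) W := by
    let instW : Fintype W := Fintype.ofFinite _
    rw [Nat.card_eq_fintype_card, Module.card_eq_pow_finrank (K := AdjoinRoot P) (V := W), hcard,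
      Nat.cast_pow]
  have hdeg1 : (p : ℝ) ^ P.natDegree = p := by rw [hO.deg, pow_one]
  have hr1 : (Nat.card W / Fintype.card (Fin n → AdjoinRoot P) : ℝ) ≤ 1 := by
    rw [card_fin inferInstance, hdeg1, hcW, div_le_one (by positivity)]
    refine pow_le_pow_right₀ hp1.le ?_
    have hrk := Submodule.finrank_add_eq_of_isCompl (hW (lv 0))
    rw [Module.finrank_fin_fun] at hrk
    have hz := Pool.Agent.Helper42.WY.a_zt1 p K M K₁ M₁ (J (lv 0)) (M₂ (lv 0)) ε δ P (a₀ (lv 0))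
      (hs (lv 0)) hO B (hD 0).some (hJ (lv 0))
    have h8 : 0 < finrank (AdjoinRoot P) (Zt B (M₂ (lv 0))) := by
      rw [Nat.pos_iff_ne_zero]
      intro h9
      exact hz (Submodule.finrank_eq_zero.1 h9)
    omega
  refine ⟨n, E, c, X₁, hc, fun i => ⟨?_, ?_⟩, hr1, ?_, hlow⟩
  · obtain ⟨K', hK'⟩ := hypG4B p K M K₁ M₁ (J (lv i)) (M₂ (lv i)) ε δ P (a₀ (lv i)) (hs (lv i)) hO
      (hfr (lv i)).2 B (hD i).some hNr n (E i).toTauF aτ (hEN i)
      (zk_tau a_grp Pool.Agent.Helper96.WY.y_sgb (hs (lv i)) (E i)) W (hW (lv i)) ψ₁ hψ₁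
    exact ⟨_, _, K', hK'⟩
  · have := (hs (lv i)).sit.gK
    have := (hs (lv i)).sit.st2
    have := (hs (lv i)).gM₂
    have := (hs (lv i)).t1
    have := (hs (lv i)).t3
    have t6 : IsScalarTower K K₁ (M₂ (lv i)) := IsScalarTower.of_algebraMap_eq fun x ↦ by
      rw [IsScalarTower.algebraMap_apply K M₁ (M₂ (lv i)), IsScalarTower.algebraMap_apply K K₁ M₁,
        ← IsScalarTower.algebraMap_apply K₁ M₁ (M₂ (lv i))]
    exact mernK p K M K₁ M₁ (M₂ (lv i)) ε δ P B (E i).toTauF (hfr (lv i)).1 (hD i).some.s0 aτ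
  · have h0 : (0 : ℝ) ≤ 1 / ((p : ℝ) - 1) := div_nonneg zero_le_one (by linarith)
    rw [hcard]
    calc _ ≤ 1 * (1 / ((p : ℝ) - 1)) := mul_le_mul_of_nonneg_right hr1 h0
      _ = _ := one_mul _

end Pool.Agent.Helper11.TH
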