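import Pool.Agent.Helper11.TH.ZTL
import Pool.Agent.Helper77.PPS.Asm
import Pool.Agent.Helper42.TH.Defs

/-!
# Project TH (MP_fc6b1e_nt, T100): densities of the sets of split primes
-/

set_option autoImplicit false

namespace Pool.Agent.Helper11.TH

open NumberField Module IsDedekindDomain Pool.Agent.Helper77.PPS
open Pool.Agent.Helper42.PP (Spl)
open Pool.Agent.Helper17.PP (Sys)
open Pool.Agent.Helper42.TH (bv MerL MerU Tail)

section

variable {P : Type} {N : P → ℕ} {C : ℝ}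

/-- Mertens, upper bound. -/
theorem mer_up (hN : PSys N C) (A : Set P) (κ : ℝ) (hκ : 0 ≤ κ) (C' : ℝ)
    (hA : ∀ x : ℝ, 2 ≤ x → |ms N (A.indicator fun _ ↦ 1) x -
      κ * Real.log (Real.log x)| ≤ C') (m n : ℕ) (hm : 1 ≤ m) (hmn : m ≤ n) (F : Finset P)
    (hF : ∀ q ∈ F, q ∈ A ∧ 2 ^ m ≤ N q ∧ N q < 2 ^ n) :
    ∑ q ∈ F, (1 : ℝ) / N q ≤ κ * Real.log (n / m) + (κ * Real.log 2 + 2 * C') := by
  classical
  have hn : 1 ≤ n := hm.trans hmn
  have hlog2 : 0 < Real.log 2 := Real.log_pos (by norm_num)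
  have hlog21 : Real.log 2 ≤ 1 := by
    have := Real.log_two_lt_d9
    linarith
  have hC' : 0 ≤ C' := (abs_nonneg _).trans (hA 2 le_rfl)
  have hmR : (0 : ℝ) < m := by exact_mod_cast hm
  have hnR : (0 : ℝ) < n := by exact_mod_cast hn
  have h2n : (2 : ℝ) ≤ 2 ^ n := by
    calc (2 : ℝ) = 2 ^ 1 := (pow_one _).symm
      _ ≤ 2 ^ n := pow_le_pow_right₀ (by norm_num) hn
  have hll : ∀ i : ℕ, (0 : ℝ) < i → Real.log (Real.log (2 ^ i)) =
      Real.log i + Real.log (Real.log 2) := by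
    intro i hi
    rw [Real.log_pow, Real.log_mul hi.ne' hlog2.ne']
  have hll2 : Real.log (Real.log 2) ≤ 0 := Real.log_nonpos hlog2.le hlog21
  have hind : ∀ x : ℝ, ms N (A.indicator fun _ ↦ 1) x =
      ∑ q ∈ (pr N x).filter (fun q => q ∈ A), (1 : ℝ) / N q := by
    intro x
    rw [ms, Finset.sum_filter]
    apply Finset.sum_congr rfl
    intro q _
    by_cases hq : q ∈ A
    · rw [Set.indicator_of_mem hq, if_pos hq]
    · rw [Set.indicator_of_notMem hq, if_neg hq, zero_div]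
  have hnn : ∀ q : P, (0 : ℝ) ≤ 1 / N q := fun q => by positivity
  have hAn := abs_le.mp (hA _ h2n)
  rw [hll n hnR] at hAn
  have hld : Real.log ((n : ℝ) / m) = Real.log n - Real.log m := Real.log_div hnR.ne' hmR.ne'
  have hFn : F ⊆ (pr N ((2 : ℝ) ^ n)).filter (fun q => q ∈ A) := by
    intro q hq
    obtain ⟨h1, h2, h3⟩ := hF q hq
    rw [Finset.mem_filter, mem_pr hN]
    exact ⟨by exact_mod_cast h3.le, h1⟩
  rcases Nat.lt_or_ge 1 m with hm2 | hm1
  · -- `m ≥ 2`
    have h2m : (2 : ℝ) ≤ 2 ^ (m - 1) := by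
      calc (2 : ℝ) = 2 ^ 1 := (pow_one _).symm
        _ ≤ 2 ^ (m - 1) := pow_le_pow_right₀ (by norm_num) (by omega)
    have hm1R : (0 : ℝ) < ((m - 1 : ℕ) : ℝ) := by
      have : 0 < m - 1 := by omega
      exact_mod_cast this
    have hAm := abs_le.mp (hA _ h2m)
    rw [hll (m - 1) hm1R] at hAm
    have hdis : Disjoint F ((pr N ((2 : ℝ) ^ (m - 1))).filter (fun q => q ∈ A)) := by
      rw [Finset.disjoint_left]
      intro q hq hq'
      obtain ⟨h1, h2, h3⟩ := hF q hq
      rw [Finset.mem_filter, mem_pr hN] at hq'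
      have h4 : N q ≤ 2 ^ (m - 1) := by exact_mod_cast hq'.1
      have h5 : 2 ^ (m - 1) < 2 ^ m := Nat.pow_lt_pow_right (by norm_num) (by omega)
      omega
    have hsub : F ∪ (pr N ((2 : ℝ) ^ (m - 1))).filter (fun q => q ∈ A) ⊆
        (pr N ((2 : ℝ) ^ n)).filter (fun q => q ∈ A) := by
      refine Finset.union_subset hFn fun q hq => ?_
      rw [Finset.mem_filter, mem_pr hN] at hq ⊢
      refine ⟨hq.1.trans ?_, hq.2⟩
      exact pow_le_pow_right₀ (by norm_num) (by omega)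
    have h6 := Finset.sum_le_sum_of_subset_of_nonneg (f := fun q => (1 : ℝ) / N q) hsub
      (fun q _ _ => hnn q)
    rw [Finset.sum_union hdis, ← hind, ← hind] at h6
    have h7 : Real.log m - Real.log ((m - 1 : ℕ) : ℝ) ≤ Real.log 2 := by
      rw [← Real.log_div hmR.ne' hm1R.ne']
      apply Real.log_le_log (by positivity)
      rw [div_le_iff₀ hm1R]
      have : m ≤ 2 * (m - 1) := by omega
      exact_mod_cast this
    have h8 := mul_le_mul_of_nonneg_left h7 hκ
    rw [hld]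
    have e1 : κ * (Real.log n + Real.log (Real.log 2)) =
      κ * Real.log n + κ * Real.log (Real.log 2) := by ring
    have e2 : κ * (Real.log ((m - 1 : ℕ) : ℝ) + Real.log (Real.log 2)) =
      κ * Real.log ((m - 1 : ℕ) : ℝ) + κ * Real.log (Real.log 2) := by ring
    have e3 : κ * (Real.log n - Real.log m) = κ * Real.log n - κ * Real.log m := by ring
    have e4 : κ * (Real.log m - Real.log ((m - 1 : ℕ) : ℝ)) =
      κ * Real.log m - κ * Real.log ((m - 1 : ℕ) : ℝ) := by ring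
    rw [e1] at hAn
    rw [e2] at hAm
    rw [e3]
    rw [e4] at h8
    linarith [hAn.2, hAm.1]
  · -- `m = 1`
    have hm1' : m = 1 := by omega
    subst hm1'
    have h6 := Finset.sum_le_sum_of_subset_of_nonneg (f := fun q => (1 : ℝ) / N q) hFn
      (fun q _ _ => hnn q)
    rw [← hind] at h6
    have h7 := mul_nonneg hκ hlog2.le
    have h8 := mul_nonpos_of_nonneg_of_nonpos hκ hll2
    rw [hld, Nat.cast_one, Real.log_one, sub_zero]
    have e1 : κ * (Real.log n + Real.log (Real.log 2)) =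
      κ * Real.log n + κ * Real.log (Real.log 2) := by ring
    rw [e1] at hAn
    linarith [hAn.2]

end

/-- An auxiliary system. -/
noncomputable def dS (K : Type) [Field K] [NumberField K] :
    Sys 2 (HeightOneSpectrum (𝓞 K)) (HeightOneSpectrum (𝓞 K)) ℚ PUnit PUnit PUnit where
  bs := id
  N v := Ideal.absNorm v.asIdeal
  spl _ := True
  cls _ := 0
  cl₀ := 0
  lam₀ := 0
  lam _ := 0
  res _ := 0
  a _ _ := 0
  dg _ := 0
  kap _ _ := 0
  two_le v := by
    have h1 : Ideal.absNorm v.asIdeal ≠ 1 := by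
      rw [Ne, Ideal.absNorm_eq_one_iff]
      exact v.isPrime.ne_top
    have h0 : Ideal.absNorm v.asIdeal ≠ 0 := by
      rw [Ne, Ideal.absNorm_eq_zero_iff]
      exact v.ne_bot
    omega
  fin Z := by
    refine Set.Finite.of_finite_image (f := HeightOneSpectrum.asIdeal) ?_ ?_
    · refine (Ideal.finite_setOfPred_absNorm_le (S := 𝓞 K) Z).subset ?_
      rintro _ ⟨v, hv, rfl⟩
      exact hv
    · intro v _ w _ h
      exact HeightOneSpectrum.ext h
  bsN v w h := by
    have h' : v = w := h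
    rw [h']
  bsS _ _ _ := Iff.rfl

/-- **ZDEN**: the density of the primes which split completely in `E`. -/
theorem zden (K E : Type) [Field K] [NumberField K] [Field E] [NumberField E] [Algebra K E]
    [IsGalois K E] (S : Finset (HeightOneSpectrum (𝓞 K))) :
    (∃ K₀ : ℝ, MerL (Spl E S) (1 / (finrank K E : ℝ)) K₀) ∧
    (∃ K₀ : ℝ, MerU (Spl E S) (1 / (finrank K E : ℝ)) K₀) ∧
    Tail (Spl E S) (4 / (finrank K E : ℝ)) := by
  classical
  obtain ⟨C, hC⟩ := n_chb K
  obtain ⟨C', hC'⟩ := n_spl K E S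
  have hg0 : (0 : ℝ) < finrank K E := by exact_mod_cast finrank_pos
  have hbv : ∀ v : HeightOneSpectrum (𝓞 K), 2 ^ bv v ≤ nv v ∧ nv v < 2 ^ (bv v + 1) := by
    intro v
    have h0 : nv v ≠ 0 := by
      have := hC.two v
      omega
    exact ⟨Nat.pow_log_le_self 2 h0, Nat.lt_pow_succ_log_self (by norm_num) _⟩
  refine ⟨?_, ?_, ?_⟩
  · set C₂ : ℝ := max C C' with hC₂
    have hP : PSys (dS K).N C₂ :=
      ⟨hC.two, fun x F hx hF => (hC.cheb x F hx hF).trans
        (mul_le_mul_of_nonneg_right (le_max_left _ _) (by linarith))⟩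
    obtain ⟨K₀, hK₀⟩ := h_mer C₂ (1 / (finrank K E : ℝ))
    refine ⟨K₀, fun m n hm hmn => ?_⟩
    have h := hK₀ 2 _ _ _ _ _ _ (dS K) (Spl E S) hP
      (fun x hx => (hC' x hx).trans (le_max_right _ _)) m n hm hmn
    refine ⟨((dS K).below n).filter (fun q => q ∈ Spl E S ∧ m ≤ (dS K).bl q), fun v hv => ?_, h⟩
    rw [Finset.mem_filter, Sys.below, Finset.mem_filter] at hv
    exact ⟨hv.2.1, hv.2.2, hv.1.2⟩
  · refine ⟨1 / (finrank K E : ℝ) * Real.log 2 + 2 * C', fun m n hm hmn F hF => ?_⟩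
    refine mer_up hC (Spl E S) _ (by positivity) C' hC' m n hm hmn F fun v hv => ?_
    obtain ⟨h1, h2, h3⟩ := hF v hv
    refine ⟨h1, (Nat.pow_le_pow_right (by norm_num) h2).trans (hbv v).1, ?_⟩
    exact (hbv v).2.trans_le (Nat.pow_le_pow_right (by norm_num) h3)
  · intro T hT
    obtain ⟨n₀, hn₀⟩ := ztl (K := K) (E := E) T hT
    refine ⟨n₀, fun n hn F hF => ?_⟩
    refine hn₀ n hn S F fun v hv => ?_
    obtain ⟨h1, h2, h3⟩ := hF v hv
    refine ⟨h1, (Nat.pow_le_pow_right (by norm_num) h2).trans (hbv v).1, ?_⟩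
    exact (hbv v).2.trans_le (Nat.pow_le_pow_right (by norm_num) h3)

end Pool.Agent.Helper11.TH
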