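import Pool.Agent.Helper58.RS.EUL
import Pool.Agent.Helper61.RS.ZET
import Pool.Agent.Helper16.PPS.NSPL

/-!
# Project TH (MP_fc6b1e_nt, T100), W.7: the tails of Mertens' sum for the split primes
-/

set_option autoImplicit false

namespace Pool.Agent.Helper11.TH

open NumberField Module IsDedekindDomain Filter Topology Pool.Agent.Helper77.PPS
open Pool.Agent.Helper38.RS Pool.Agent.Helper58.RS Pool.Agent.Helper61.RS.Zet
open Pool.Agent.Helper42.PP (Spl)
open Pool.Agent.Helper16.PPS (Up pz_up mem_spl)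

section

variable (F : Type) [Field F] [NumberField F]

/-- `(s - 1) ζ_F(s)` tends to a positive limit. -/
theorem zlim : ∃ ρ : ℝ, 0 < ρ ∧
    Tendsto (fun s : ℝ ↦ (s - 1) * Lf (F := F) (fun _ ↦ 1) s) (𝓝[>] 1) (𝓝 ρ) := by
  refine ⟨dedekindZeta_residue F, dedekindZeta_residue_pos F, ?_⟩
  have h := tendsto_sub_one_mul_dedekindZeta_nhdsGT F
  have h2 := (Complex.continuous_re.tendsto _).comp h
  rw [Complex.ofReal_re] at h2
  refine h2.congr' ?_
  filter_upwards [self_mem_nhdsWithin] with s hs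
  have hs1 : 1 < s := hs
  simp only [Function.comp_apply]
  rw [zeta_eq (summable_ideals s hs1), Lf_eq]
  rw [← Complex.ofReal_one, ← Complex.ofReal_sub, ← Complex.ofReal_mul, Complex.ofReal_re]

variable {F}

/-- The Euler product. -/
theorem elim (s : ℝ) (hs : 1 < s) : 0 < Lf (F := F) (fun _ ↦ 1) s ∧
    Tendsto (fun S : Finset (HeightOneSpectrum (𝓞 F)) =>
      ∏ v ∈ S, (1 - (Ideal.absNorm v.asIdeal : ℝ) ^ (-s))⁻¹) atTop
      (𝓝 (Lf (F := F) (fun _ ↦ 1) s)) := by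
  classical
  have hI := summable_ideals (F := F) s hs
  have hp := _root_.Pool.Agent.Helper84.RS.summable_norm F s hs
  set f : Ideal (𝓞 F) → ℝ := fun J => (Ideal.absNorm J : ℝ) ^ (-s) with hf
  have hft : f ⊤ = 1 := by simp [hf]
  have hfm : ∀ I J, f (I * J) = f I * f J := fun I J => mul_rpow_norm s I J
  have hf0 : ∀ J, 0 ≤ f J := fun J => by simp only [hf]; positivity
  have hfv : ∀ v : HeightOneSpectrum (𝓞 F), ‖f v.asIdeal‖ < 1 := fun v => by
    rw [Real.norm_of_nonneg (hf0 _)]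
    have := norm_le_half v s hs
    have h2 : f v.asIdeal ≤ 1 / 2 := this
    linarith
  have hE := fun S => (euler_fin f hft hfm hfv S).2
  refine ⟨(s_eul_aux (F := F) (fun _ ↦ 1) rfl (fun _ _ ↦ by norm_num) (fun _ ↦ by norm_num) s hs).1,
    ?_⟩
  have h1 : ∀ S : Finset (HeightOneSpectrum (𝓞 F)), ∏ v ∈ S, (1 - f v.asIdeal)⁻¹ =
      ∑' J : {J : Ideal (𝓞 F) // J ≠ ⊥}, (IS S).indicator f J.1 := by
    intro S
    have h2 := (hE S).tsum_eq
    rw [← h2]
    have h3 : ∑' J : IS S, f J = ∑' J : Ideal (𝓞 F), (IS S).indicator f J :=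
      tsum_subtype (IS S) f
    have h4 : ∑' J : {J : Ideal (𝓞 F) // J ≠ ⊥}, (IS S).indicator f J.1 =
        ∑' J : Ideal (𝓞 F), ({J : Ideal (𝓞 F) | J ≠ ⊥}).indicator ((IS S).indicator f) J :=
      tsum_subtype {J : Ideal (𝓞 F) | J ≠ ⊥} ((IS S).indicator f)
    rw [h3, h4]
    congr 1
    funext J
    rw [Set.indicator_indicator]
    congr 1
    ext K
    constructor
    · intro hK
      exact ⟨hK.1, hK⟩
    · intro hK
      exact hK.2
  have h5 : (fun S : Finset (HeightOneSpectrum (𝓞 F)) =>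
      ∏ v ∈ S, (1 - (Ideal.absNorm v.asIdeal : ℝ) ^ (-s))⁻¹) =
      fun S => ∑' J : {J : Ideal (𝓞 F) // J ≠ ⊥}, (IS S).indicator f J.1 := funext h1
  rw [h5]
  have h6 : Lf (F := F) (fun _ ↦ 1) s = ∑' J : {J : Ideal (𝓞 F) // J ≠ ⊥}, f J.1 := by
    unfold Lf
    simp only [one_mul, hf]
  rw [h6]
  apply tendsto_tsum_of_dominated_convergence hI
  · intro J
    obtain ⟨S₀, hS₀⟩ := exists_IS J.1 J.2
    apply tendsto_const_nhds.congr'
    filter_upwards [eventually_ge_atTop S₀] with S hS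
    rw [Set.indicator_of_mem (hS₀ S hS)]
  · refine Eventually.of_forall fun S J => ?_
    rw [Real.norm_eq_abs]
    by_cases hJ : J.1 ∈ IS S
    · rw [Set.indicator_of_mem hJ, abs_of_nonneg (hf0 _)]
    · rw [Set.indicator_of_notMem hJ, abs_zero]
      exact hf0 _

/-- `y - x ≤ log(1 - x) - log(1 - y)`. -/
theorem log_cmp (x y : ℝ) (hx : 0 ≤ x) (hxy : x ≤ y) (hy : y ≤ 1 / 2) :
    y - x ≤ Real.log (1 - y)⁻¹ - Real.log (1 - x)⁻¹ := by
  have h1 : 0 < 1 - y := by linarith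
  have h2 : 0 < 1 - x := by linarith
  rw [Real.log_inv, Real.log_inv]
  have h3 : Real.log ((1 - y) / (1 - x)) ≤ (1 - y) / (1 - x) - 1 :=
    Real.log_le_sub_one_of_pos (div_pos h1 h2)
  rw [Real.log_div h1.ne' h2.ne'] at h3
  have h4 : (1 - y) / (1 - x) - 1 ≤ -(y - x) := by
    rw [div_sub_one h2.ne', div_le_iff₀ h2]
    nlinarith
  linarith

/-- `∑_W (N W^(-s₁) - N W^(-s₂)) ≤ log ζ(s₁) - log ζ(s₂)`. -/
theorem pz_diff (s₁ s₂ : ℝ) (h1 : 1 < s₁) (h2 : s₁ ≤ s₂)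
    (S : Finset (HeightOneSpectrum (𝓞 F))) :
    ∑ v ∈ S, ((Ideal.absNorm v.asIdeal : ℝ) ^ (-s₁) - (Ideal.absNorm v.asIdeal : ℝ) ^ (-s₂)) ≤
      Real.log (Lf (F := F) (fun _ ↦ 1) s₁) - Real.log (Lf (F := F) (fun _ ↦ 1) s₂) := by
  classical
  obtain ⟨hp1, hl1⟩ := elim (F := F) s₁ h1
  obtain ⟨hp2, hl2⟩ := elim (F := F) s₂ (by linarith)
  have hpos : ∀ (s : ℝ), 1 < s → ∀ v : HeightOneSpectrum (𝓞 F),
      0 < (1 - (Ideal.absNorm v.asIdeal : ℝ) ^ (-s))⁻¹ := fun s hs v => by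
    rw [inv_pos]
    have := norm_le_half v s hs
    linarith
  have hmono : ∀ v : HeightOneSpectrum (𝓞 F),
      (Ideal.absNorm v.asIdeal : ℝ) ^ (-s₂) ≤ (Ideal.absNorm v.asIdeal : ℝ) ^ (-s₁) := by
    intro v
    have h3 : (2 : ℝ) ≤ (Ideal.absNorm v.asIdeal : ℝ) := by exact_mod_cast two_le_norm v
    exact Real.rpow_le_rpow_of_exponent_le (by linarith) (by linarith)
  have hlim := (hl1.log hp1.ne').sub (hl2.log hp2.ne')
  refine ge_of_tendsto hlim ?_
  filter_upwards [eventually_ge_atTop S] with S' hS'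
  rw [Real.log_prod (fun v _ => (hpos s₁ h1 v).ne'),
    Real.log_prod (fun v _ => (hpos s₂ (by linarith) v).ne'), ← Finset.sum_sub_distrib]
  refine (Finset.sum_le_sum_of_subset_of_nonneg hS' fun v _ _ => ?_).trans
    (Finset.sum_le_sum fun v _ => ?_)
  · linarith [hmono v]
  · exact log_cmp _ _ (by positivity) (hmono v) (norm_le_half v s₁ h1)

end

section

variable {K E : Type} [Field K] [NumberField K] [Field E] [NumberField E] [Algebra K E]
  [IsGalois K E]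

/-- **W.7** (`ZTL`): the tails of the sum over the primes which split completely in `E`. -/
theorem ztl (T : ℕ) (hT : 1 ≤ T) : ∃ n₀ : ℕ, ∀ n : ℕ, n₀ ≤ n →
    ∀ (S : Finset (HeightOneSpectrum (𝓞 K))) (V : Finset (HeightOneSpectrum (𝓞 K))),
    (∀ v ∈ V, v ∈ Spl E S ∧ 2 ^ n ≤ nv v ∧ nv v < 2 ^ (T * n)) →
    ∑ v ∈ V, (1 : ℝ) / nv v ≤ 4 / (finrank K E : ℝ) * (Real.log T + 2) := by
  classical
  obtain ⟨ρ, hρ, hlim⟩ := zlim E
  have hT' : (1 : ℝ) ≤ T := by exact_mod_cast hT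
  set Z : ℝ → ℝ := Lf (F := E) (fun _ ↦ 1) with hZ
  -- the two sequences
  have ht1 : Tendsto (fun n : ℕ ↦ 1 + 1 / ((T : ℝ) * n)) atTop (𝓝[>] 1) := by
    rw [tendsto_nhdsWithin_iff]
    constructor
    · have h1 : Tendsto (fun n : ℕ ↦ (T : ℝ) * n) atTop atTop :=
        Tendsto.const_mul_atTop (by linarith) tendsto_natCast_atTop_atTop
      have h2 : Tendsto (fun n : ℕ ↦ 1 / ((T : ℝ) * n)) atTop (𝓝 0) := by
        simp only [one_div]
        exact tendsto_inv_atTop_zero.comp h1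
      have h3 := h2.const_add 1
      rwa [add_zero] at h3
    · filter_upwards [eventually_gt_atTop 0] with n hn
      have hn' : (0 : ℝ) < n := by exact_mod_cast hn
      have : (0 : ℝ) < 1 / ((T : ℝ) * n) := by positivity
      show (1 : ℝ) < _
      linarith
  have ht2 : Tendsto (fun n : ℕ ↦ 1 + 2 / (n : ℝ)) atTop (𝓝[>] 1) := by
    rw [tendsto_nhdsWithin_iff]
    constructor
    · have h2 : Tendsto (fun n : ℕ ↦ 2 / (n : ℝ)) atTop (𝓝 0) :=
        tendsto_const_div_atTop_nhds_zero_nat 2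
      have h3 := h2.const_add 1
      rwa [add_zero] at h3
    · filter_upwards [eventually_gt_atTop 0] with n hn
      have hn' : (0 : ℝ) < n := by exact_mod_cast hn
      have : (0 : ℝ) < 2 / (n : ℝ) := by positivity
      show (1 : ℝ) < _
      linarith
  have hl1 := (hlim.comp ht1).log hρ.ne'
  have hl2 := (hlim.comp ht2).log hρ.ne'
  have hl := hl1.sub hl2
  rw [sub_self] at hl
  have hev := hl.eventually (gt_mem_nhds (show (0 : ℝ) < 1 by norm_num))
  rw [eventually_atTop] at hev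
  obtain ⟨n₀, hn₀⟩ := hev
  refine ⟨max n₀ 1, fun n hn S V hV => ?_⟩
  have hnn : n₀ ≤ n := (le_max_left _ _).trans hn
  have hn1 : 1 ≤ n := (le_max_right _ _).trans hn
  have hn' : (1 : ℝ) ≤ n := by exact_mod_cast hn1
  have h3 := hn₀ n hnn
  simp only [Function.comp_apply] at h3
  set s₁ : ℝ := 1 + 1 / ((T : ℝ) * n) with hs₁
  set s₂ : ℝ := 1 + 2 / (n : ℝ) with hs₂
  have hTn : (0 : ℝ) < (T : ℝ) * n := by positivity
  have hs11 : 1 < s₁ := by
    have : (0 : ℝ) < 1 / ((T : ℝ) * n) := by positivity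
    linarith
  have hs21 : 1 < s₂ := by
    have : (0 : ℝ) < 2 / (n : ℝ) := by positivity
    linarith
  have hs12 : s₁ ≤ s₂ := by
    rw [hs₁, hs₂, add_le_add_iff_left, div_le_div_iff₀ hTn (by linarith)]
    nlinarith
  have hZ1 : 0 < Z s₁ := (elim (F := E) s₁ hs11).1
  have hZ2 : 0 < Z s₂ := (elim (F := E) s₂ hs21).1
  -- the quotient of the zeta values
  have hq : Real.log (Z s₁) - Real.log (Z s₂) ≤ Real.log T + 2 := by
    have e1 : s₁ - 1 = 1 / ((T : ℝ) * n) := by rw [hs₁]; ring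
    have e2 : s₂ - 1 = 2 / (n : ℝ) := by rw [hs₂]; ring
    rw [Real.log_mul (by linarith) hZ1.ne', Real.log_mul (by linarith) hZ2.ne', e1, e2,
      Real.log_div one_ne_zero hTn.ne', Real.log_div two_ne_zero (by linarith), Real.log_one,
      Real.log_mul (by linarith) (by linarith)] at h3
    have h4 : Real.log 2 ≤ 1 := by
      have := Real.log_two_lt_d9
      linarith
    linarith
  -- the primes
  have hg0 : (0 : ℝ) < finrank K E := by exact_mod_cast finrank_pos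
  have hterm : ∀ v ∈ V, (1 : ℝ) / nv v ≤
      4 * ((Ideal.absNorm v.asIdeal : ℝ) ^ (-s₁) - (Ideal.absNorm v.asIdeal : ℝ) ^ (-s₂)) := by
    intro v hv
    obtain ⟨-, hv1, hv2⟩ := hV v hv
    set N : ℝ := (Ideal.absNorm v.asIdeal : ℝ) with hN
    have hNnv : (nv v : ℝ) = N := rfl
    have hv1' : (2 : ℝ) ^ n ≤ N := by rw [← hNnv]; exact_mod_cast hv1
    have hv2' : N ≤ (2 : ℝ) ^ (T * n) := by rw [← hNnv]; exact_mod_cast hv2.le
    have hNp : 0 < N := lt_of_lt_of_le (by positivity) hv1'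
    have a1 : (1 : ℝ) / 2 ≤ N ^ (-(1 / ((T : ℝ) * n))) := by
      have h5 : ((2 : ℝ) ^ (T * n)) ^ (-(1 / ((T : ℝ) * n))) = 1 / 2 := by
        rw [← Real.rpow_natCast, ← Real.rpow_mul (by norm_num)]
        push_cast
        rw [mul_neg, mul_one_div, div_self hTn.ne', Real.rpow_neg_one]
        norm_num
      rw [← h5]
      exact Real.rpow_le_rpow_of_nonpos hNp hv2' (by
        have : (0 : ℝ) < 1 / ((T : ℝ) * n) := by positivity
        linarith)
    have a2 : N ^ (-(2 / (n : ℝ))) ≤ 1 / 4 := by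
      have h5 : ((2 : ℝ) ^ n) ^ (-(2 / (n : ℝ))) = 1 / 4 := by
        rw [← Real.rpow_natCast, ← Real.rpow_mul (by norm_num)]
        rw [mul_neg, mul_div_cancel₀ _ (by linarith), Real.rpow_neg (by norm_num)]
        norm_num
      rw [← h5]
      exact Real.rpow_le_rpow_of_nonpos (by positivity) hv1' (by
        have : (0 : ℝ) < 2 / (n : ℝ) := by positivity
        linarith)
    have b1 : N ^ (-s₁) = N⁻¹ * N ^ (-(1 / ((T : ℝ) * n))) := by
      rw [hs₁, neg_add, Real.rpow_add hNp, Real.rpow_neg_one]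
    have b2 : N ^ (-s₂) = N⁻¹ * N ^ (-(2 / (n : ℝ))) := by
      rw [hs₂, neg_add, Real.rpow_add hNp, Real.rpow_neg_one]
    rw [hNnv, b1, b2, ← mul_sub, one_div]
    have hNi : 0 < N⁻¹ := inv_pos.2 hNp
    have : N⁻¹ * (1 / 4) ≤
        N⁻¹ * (N ^ (-(1 / ((T : ℝ) * n))) - N ^ (-(2 / (n : ℝ)))) :=
      mul_le_mul_of_nonneg_left (by linarith) hNi.le
    linarith
  -- the primes above
  rcases V.eq_empty_or_nonempty with hVe | ⟨v₀, hv₀⟩
  · rw [hVe, Finset.sum_empty]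
    have : 0 ≤ Real.log T := Real.log_nonneg hT'
    positivity
  have hex : ∀ v : HeightOneSpectrum (𝓞 K), ∃ W : HeightOneSpectrum (𝓞 E), v ∈ Spl E S →
      Pool.Agent.Helper40.RS.bel K W = v ∧ Pool.Agent.Helper51.RP.FreeP K W := by
    intro v
    by_cases hv : v ∈ Spl E S
    · obtain ⟨-, W, h1, h2⟩ := (mem_spl S v).1 hv
      exact ⟨W, fun _ => ⟨h1, h2⟩⟩
    · obtain ⟨-, W, -, -⟩ := (mem_spl S v₀).1 (hV v₀ hv₀).1
      exact ⟨W, fun h => absurd h hv⟩
  choose W₀ hW₀ using hex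
  have hfinG : Fintype (E ≃ₐ[K] E) := Fintype.ofFinite _
  have hcard : (Fintype.card (E ≃ₐ[K] E) : ℝ) = finrank K E := by
    rw [← IsGalois.card_aut_eq_finrank K E, Nat.card_eq_fintype_card]
  set e : HeightOneSpectrum (𝓞 K) × (E ≃ₐ[K] E) → HeightOneSpectrum (𝓞 E) :=
    fun x => Pool.Agent.Helper40.RS.gw x.2 (W₀ x.1) with he
  have hinj : Set.InjOn e ((V ×ˢ (Finset.univ : Finset (E ≃ₐ[K] E)) : Finset _) : Set _) := by
    rintro ⟨v, g⟩ hx ⟨v', g'⟩ hx' h
    rw [Finset.coe_product, Set.mem_prod] at hx hx'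
    have hv := (hV v (Finset.mem_coe.1 hx.1)).1
    have hv' := (hV v' (Finset.mem_coe.1 hx'.1)).1
    have h1 : Pool.Agent.Helper40.RS.gw g (W₀ v) = Pool.Agent.Helper40.RS.gw g' (W₀ v') := h
    have h2 : v = v' := by
      rw [← (hW₀ v hv).1, ← (hW₀ v' hv').1, ← Pool.Agent.Helper16.PPS.bel_gw g (W₀ v),
        ← Pool.Agent.Helper16.PPS.bel_gw g' (W₀ v'), h1]
    subst h2
    rw [Pool.Agent.Helper40.RS.gw_inj (W₀ v) (hW₀ v hv).2 h1]
  have hval : ∀ v ∈ V, ∀ g : E ≃ₐ[K] E,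
      Ideal.absNorm (e (v, g)).asIdeal = Ideal.absNorm v.asIdeal := by
    intro v hv g
    have hvs := (hV v hv).1
    show Ideal.absNorm (Pool.Agent.Helper40.RS.gw g (W₀ v)).asIdeal = _
    rw [Pool.Agent.Helper40.RS.absNorm_free (K := K) (Pool.Agent.Helper40.RS.gw g (W₀ v))
      (Pool.Agent.Helper40.RS.free_gw g (W₀ v) (hW₀ v hvs).2), Pool.Agent.Helper16.PPS.bel_gw,
      (hW₀ v hvs).1]
  have hsum := pz_diff (F := E) s₁ s₂ hs11 hs12
    ((V ×ˢ (Finset.univ : Finset (E ≃ₐ[K] E))).image e)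
  rw [Finset.sum_image hinj, Finset.sum_product] at hsum
  have hsum2 : ∑ v ∈ V, ∑ g : E ≃ₐ[K] E, ((Ideal.absNorm (e (v, g)).asIdeal : ℝ) ^ (-s₁) -
      (Ideal.absNorm (e (v, g)).asIdeal : ℝ) ^ (-s₂)) = (finrank K E : ℝ) *
      ∑ v ∈ V, ((Ideal.absNorm v.asIdeal : ℝ) ^ (-s₁) - (Ideal.absNorm v.asIdeal : ℝ) ^ (-s₂)) := by
    rw [Finset.mul_sum]
    refine Finset.sum_congr rfl fun v hv => ?_
    rw [Finset.sum_congr rfl (fun g _ => by rw [hval v hv g]), Finset.sum_const, Finset.card_univ,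
      nsmul_eq_mul, hcard]
  rw [hsum2] at hsum
  calc ∑ v ∈ V, (1 : ℝ) / nv v
      ≤ ∑ v ∈ V, 4 * ((Ideal.absNorm v.asIdeal : ℝ) ^ (-s₁) -
          (Ideal.absNorm v.asIdeal : ℝ) ^ (-s₂)) := Finset.sum_le_sum hterm
    _ = 4 / (finrank K E : ℝ) * ((finrank K E : ℝ) * ∑ v ∈ V,
        ((Ideal.absNorm v.asIdeal : ℝ) ^ (-s₁) - (Ideal.absNorm v.asIdeal : ℝ) ^ (-s₂))) := by
        rw [← Finset.mul_sum]
        field_simp
    _ ≤ 4 / (finrank K E : ℝ) * (Real.log T + 2) :=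
        mul_le_mul_of_nonneg_left (hsum.trans hq) (by positivity)

end

end Pool.Agent.Helper11.TH
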